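import Pool.Agent.Q97.UM.Stm6

set_option autoImplicit false

/-!
# Project UM2 of helper97 (helper150): elementary facts about the prime sums and the zero sums
-/

namespace Pool.Agent.Q150.UM

open Filter Topology MeasureTheory Complex
open scoped ComplexConjugate
open Pool.Agent.Q97.UM

noncomputable section

/-! ### the prime sums -/

lemma summL : Summable fun n : ℕ => ArithmeticFunction.vonMangoldt n * (n : ℝ) ^ (-(3 / 2) : ℝ) := by
  have h1 : Summable fun n : ℕ => 4 * (n : ℝ) ^ (-(5 / 4) : ℝ) :=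
    (Real.summable_nat_rpow.2 (by norm_num)).mul_left 4
  refine Summable.of_nonneg_of_le (fun n => mul_nonneg ArithmeticFunction.vonMangoldt_nonneg (by positivity)) (fun n => ?_) h1
  rcases Nat.eq_zero_or_pos n with hn | hn
  · subst hn
    simp
  have hn' : (0 : ℝ) < n := by exact_mod_cast hn
  have h2 : Real.log n ≤ 4 * (n : ℝ) ^ (1 / 4 : ℝ) := by
    have := Real.log_le_rpow_div hn'.le (show (0 : ℝ) < 1 / 4 by norm_num)
    linarith
  calc ArithmeticFunction.vonMangoldt n * (n : ℝ) ^ (-(3 / 2) : ℝ) ≤ (4 * (n : ℝ) ^ (1 / 4 : ℝ)) * (n : ℝ) ^ (-(3 / 2) : ℝ) :=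
        mul_le_mul_of_nonneg_right (ArithmeticFunction.vonMangoldt_le_log.trans h2) (by positivity)
    _ = 4 * (n : ℝ) ^ (-(5 / 4) : ℝ) := by
        rw [mul_assoc, ← Real.rpow_add hn']
        norm_num

/-- an absolute constant -/
def c1 : ℝ := ∑' n : ℕ, ArithmeticFunction.vonMangoldt n * (n : ℝ) ^ (-(3 / 2) : ℝ)

lemma c1_nonneg : 0 ≤ c1 := tsum_nonneg fun _ => mul_nonneg ArithmeticFunction.vonMangoldt_nonneg (by positivity)

/-- a prime sum with coefficients `q` -/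
def Fq (q : ℕ → ℝ) (t : ℝ) : ℂ := ∑' n : ℕ, (ArithmeticFunction.vonMangoldt n : ℂ) * (n : ℂ) ^ (-(1 / 2 + t * I)) * ((q n : ℝ) : ℂ)

lemma norm_npow (n : ℕ) (hn : 1 ≤ n) (t : ℝ) : ‖(n : ℂ) ^ (-(1 / 2 + t * I))‖ = (n : ℝ) ^ (-(1 / 2) : ℝ) := by
  rw [Complex.norm_natCast_cpow_of_pos hn]
  congr 1
  simp

lemma term_le (q : ℕ → ℝ) (A : ℝ) (hq : ∀ n : ℕ, 1 ≤ n → |q n| ≤ A / n) (n : ℕ) (t : ℝ) :
    ‖(ArithmeticFunction.vonMangoldt n : ℂ) * (n : ℂ) ^ (-(1 / 2 + t * I)) * ((q n : ℝ) : ℂ)‖ ≤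
      A * (ArithmeticFunction.vonMangoldt n * (n : ℝ) ^ (-(3 / 2) : ℝ)) := by
  rcases Nat.eq_zero_or_pos n with hn | hn
  · subst hn
    simp
  have hn' : (0 : ℝ) < n := by exact_mod_cast hn
  rw [norm_mul, norm_mul, norm_npow n hn, Complex.norm_real, Complex.norm_real, Real.norm_eq_abs, Real.norm_eq_abs,
    abs_of_nonneg ArithmeticFunction.vonMangoldt_nonneg]
  have h1 := hq n hn
  have h2 : (n : ℝ) ^ (-(1 / 2) : ℝ) * (A / n) = A * (n : ℝ) ^ (-(3 / 2) : ℝ) := by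
    have e : (A / n : ℝ) = A * (n : ℝ) ^ (-1 : ℝ) := by rw [Real.rpow_neg_one, div_eq_mul_inv]
    rw [e, mul_left_comm, ← Real.rpow_add hn']
    norm_num
  calc ArithmeticFunction.vonMangoldt n * (n : ℝ) ^ (-(1 / 2) : ℝ) * |q n| ≤
      ArithmeticFunction.vonMangoldt n * (n : ℝ) ^ (-(1 / 2) : ℝ) * (A / n) :=
        mul_le_mul_of_nonneg_left h1 (mul_nonneg ArithmeticFunction.vonMangoldt_nonneg (by positivity))
    _ = _ := by rw [mul_assoc, h2]; ring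

lemma Fq_cont (q : ℕ → ℝ) (A : ℝ) (hq : ∀ n : ℕ, 1 ≤ n → |q n| ≤ A / n) : Continuous (Fq q) := by
  unfold Fq
  refine continuous_tsum (fun n => ?_) (summL.mul_left A) (fun n t => term_le q A hq n t)
  rcases Nat.eq_zero_or_pos n with hn | hn
  · subst hn
    simp only [ArithmeticFunction.map_zero, Complex.ofReal_zero, zero_mul]
    exact continuous_const
  refine (continuous_const.mul ?_).mul continuous_const
  refine Continuous.const_cpow (by fun_prop) (Or.inl ?_)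
  exact_mod_cast hn.ne'

lemma Fq_norm (q : ℕ → ℝ) (A : ℝ) (hq : ∀ n : ℕ, 1 ≤ n → |q n| ≤ A / n) (t : ℝ) : ‖Fq q t‖ ≤ A * c1 := by
  unfold Fq c1
  rw [← tsum_mul_left]
  exact tsum_of_norm_bounded (summL.mul_left A).hasSum (fun n => term_le q A hq n t)

lemma Fq_summable (q : ℕ → ℝ) (A : ℝ) (hq : ∀ n : ℕ, 1 ≤ n → |q n| ≤ A / n) (t : ℝ) :
    Summable fun n : ℕ => (ArithmeticFunction.vonMangoldt n : ℂ) * (n : ℂ) ^ (-(1 / 2 + t * I)) * ((q n : ℝ) : ℂ) :=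
  Summable.of_norm_bounded (summL.mul_left A) (fun n => term_le q A hq n t)

/-! ### bounds for `QL` -/

/-- the properties of `QL w L` which we use -/
structure QB (w : ℝ → ℝ) (δ D L : ℝ) : Prop where
  cont : Continuous (QL w L)
  even : ∀ x : ℝ, QL w L (-x) = QL w L x
  bdd : ∀ x : ℝ, |QL w L x| ≤ D
  lip : ∀ x y : ℝ, |QL w L x - QL w L y| ≤ D / L * |x - y|
  tail : ∀ x : ℝ, 2 * δ * L ≤ |x| → |QL w L x| ≤ D * Real.exp (-(|x| - 2 * δ * L) ^ 2 / 2)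
  int : Integrable (fun x => QL w L x ^ 2)
  sq : |(∫ x : ℝ, QL w L x ^ 2) - L * I2 w| ≤ D
  zero : |QL w L 0 - qh w 0| ≤ D / L

lemma qb_of (hQH : S_QH) (hQLF : S_QLF) {δ H C : ℝ} {K : ℕ} {w : ℝ → ℝ} (hδ : 0 < δ) (hδ1 : δ ≤ 1) (hH : 1 ≤ H) (hC : 1 ≤ C)
    (hK : 2 ≤ K) (hw : OmW δ H C K w) : ∃ D : ℝ, 1 ≤ D ∧ ∀ L : ℝ, 1 ≤ L → QB w δ D L := by
  obtain ⟨h1, h2, h3, -⟩ := hQH δ H C K w hδ hδ1 hH hC hK hw
  obtain ⟨D, hD, h⟩ := hQLF δ w hδ hδ1 h1 h2 h3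
  refine ⟨D, hD, fun L hL => ?_⟩
  obtain ⟨a1, a2, a3, a4, a5, a6, a7, a8⟩ := h L hL
  exact ⟨a1, a2, a3, a4, a5, a6, a7, a8⟩

variable {w : ℝ → ℝ} {δ D L : ℝ}

lemma QL_exp (hQ : QB w δ D L) (hD : 0 ≤ D) (hδL : 0 ≤ δ * L) (u y : ℝ) :
    |QL w L (y - u)| ≤ D * Real.exp (u + 2 * δ * L + 1 / 2) * Real.exp (-y) := by
  rw [mul_assoc, ← Real.exp_add]
  by_cases h : 2 * δ * L ≤ y - u
  · have h1 : |y - u| = y - u := abs_of_nonneg (by linarith)
    have h2 := hQ.tail (y - u) (by rw [h1]; exact h)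
    rw [h1] at h2
    refine h2.trans (mul_le_mul_of_nonneg_left (Real.exp_le_exp.2 ?_) hD)
    nlinarith [sq_nonneg (y - u - 2 * δ * L - 1)]
  · push Not at h
    refine (hQ.bdd _).trans ?_
    have h2 : 1 ≤ Real.exp (u + 2 * δ * L + 1 / 2 + -y) := Real.one_le_exp (by linarith)
    nlinarith

/-- bound for the coefficients -/
lemma QL_coef (hQ : QB w δ D L) (hD : 0 ≤ D) (hδL : 0 ≤ δ * L) (hL : 0 < L) (u : ℝ) (n : ℕ) (hn : 1 ≤ n) :
    |QL w L (Real.log n - u) / L| ≤ (D * Real.exp (u + 2 * δ * L + 1 / 2) / L) / n := by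
  have hn' : (0 : ℝ) < n := by exact_mod_cast hn
  have h1 := QL_exp hQ hD hδL u (Real.log n)
  rw [Real.exp_neg, Real.exp_log hn'] at h1
  rw [abs_div, abs_of_pos hL, div_div, div_le_div_iff₀ hL (mul_pos hL hn')]
  rw [← div_eq_mul_inv, le_div_iff₀ hn'] at h1
  nlinarith

lemma PL_eq (w : ℝ → ℝ) (L u t : ℝ) : PL w L u t = Fq (fun n => QL w L (Real.log n - u) / L) t := rfl

lemma PL_cont (hQ : QB w δ D L) (hD : 0 ≤ D) (hδL : 0 ≤ δ * L) (hL : 0 < L) (u : ℝ) : Continuous (PL w L u) :=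
  Fq_cont _ _ (QL_coef hQ hD hδL hL u)

/-- the second prime sum is small -/
lemma PL_neg_small (hQ : QB w δ D L) (hD : 0 ≤ D) (hδ : 0 < δ) (hL : 0 < L) (u t : ℝ) (hu : 3 * δ * L ≤ u) :
    ‖PL w L (-u) t‖ ≤ (D * Real.exp (1 / 2) * Real.exp (-(δ * L) ^ 2 / 2) / L) * c1 := by
  rw [PL_eq]
  refine Fq_norm _ _ (fun n hn => ?_) t
  have hn' : (1 : ℝ) ≤ n := by exact_mod_cast hn
  have hn0 : (0 : ℝ) < n := by linarith
  have hy : 0 ≤ Real.log n := Real.log_nonneg hn'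
  have hδL : 0 < δ * L := mul_pos hδ hL
  set y := Real.log n with hy'
  have h1 : |y - -u| = y + u := by rw [sub_neg_eq_add, abs_of_nonneg (by nlinarith)]
  have h2 := hQ.tail (y - -u) (by rw [h1]; nlinarith)
  rw [h1] at h2
  have h3 : -(y + u - 2 * δ * L) ^ 2 / 2 ≤ -(δ * L) ^ 2 / 2 + (1 / 2 + -y) := by
    nlinarith [sq_nonneg (y - 1), mul_nonneg hy (show 0 ≤ u - 2 * δ * L by nlinarith),
      sq_nonneg (u - 2 * δ * L), mul_nonneg (show 0 ≤ u - 3 * δ * L by nlinarith) (show 0 ≤ u - 2 * δ * L + δ * L by nlinarith)]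
  have h4 : |QL w L (y - -u)| ≤ D * (Real.exp (-(δ * L) ^ 2 / 2) * (Real.exp (1 / 2) * (1 / n))) := by
    refine h2.trans (mul_le_mul_of_nonneg_left ((Real.exp_le_exp.2 h3).trans (le_of_eq ?_)) hD)
    rw [Real.exp_add, Real.exp_add, Real.exp_neg y, hy', Real.exp_log hn0, one_div (n : ℝ)]
  rw [abs_div, abs_of_pos hL, div_div, div_le_div_iff₀ hL (mul_pos hL hn0)]
  have h5 : D * (Real.exp (-(δ * L) ^ 2 / 2) * (Real.exp (1 / 2) * (1 / n))) * (L * n) =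
      D * Real.exp (1 / 2) * Real.exp (-(δ * L) ^ 2 / 2) * L := by
    field_simp
  rw [← h5]
  exact mul_le_mul_of_nonneg_right h4 (by positivity)

/-! ### the zero sums -/

lemma om_cont {H C : ℝ} {K : ℕ} (hw : OmW δ H C K w) : Continuous (om w) := by
  obtain ⟨D, hD⟩ := hw.lip
  have hwc : Continuous w := by
    have h1 : LipschitzWith (Real.toNNReal D) w := LipschitzWith.of_dist_le_mul fun x y => by
      rw [Real.dist_eq, Real.dist_eq]
      exact (hD x y).trans (mul_le_mul_of_nonneg_right (Real.le_coe_toNNReal D) (abs_nonneg _))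
    exact h1.continuous
  have h2 : om w = fun z => ∫ v in Set.Icc (-δ) δ, (w v : ℂ) * cexp (I * (v * z)) := by
    funext z
    unfold om
    rw [setIntegral_eq_integral_of_forall_compl_eq_zero]
    intro v hv
    rw [hw.supp v, Complex.ofReal_zero, zero_mul]
    rw [Set.mem_Icc, ← abs_le, not_le] at hv
    exact hv.le
  rw [h2]
  exact continuous_parametric_integral_of_continuous (by fun_prop) isCompact_Icc

lemma Zt_cont {H C : ℝ} {K : ℕ} (hw : OmW δ H C K w) (T u : ℝ) : Continuous (Zt w T u) := by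
  unfold Zt
  refine continuous_finsetSum _ fun s _ => ?_
  have h1 := om_cont hw
  fun_prop

/-! ### Dirichlet polynomials -/

lemma N2_nonneg (N : ℕ) (b : ℕ → ℂ) : 0 ≤ N2 N b := by
  unfold N2
  positivity

lemma dp_zero (b : ℕ → ℂ) (t : ℝ) : dp 0 b t = 0 := by
  unfold dp
  simp

lemma dp_cont (N : ℕ) (b : ℕ → ℂ) : Continuous (dp N b) := by
  unfold dp
  refine continuous_finsetSum _ fun n hn => ?_
  rw [Finset.mem_Icc] at hn
  refine continuous_const.mul (Continuous.const_cpow (by fun_prop) (Or.inl ?_))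
  exact_mod_cast (by omega : n ≠ 0)

lemma I2_nonneg (w : ℝ → ℝ) : 0 ≤ I2 w := integral_nonneg fun _ => sq_nonneg _

lemma dp_ms {C₀ : ℝ} (h : ∀ (a b : ℝ), a ≤ b → ∀ (M : ℕ) (c : ℕ → ℂ), 1 ≤ M →
    |(∫ t in a..b, ‖dp M c t‖ ^ 2) - (b - a) * N2 M c| ≤ C₀ * M * (1 + Real.log M) * N2 M c)
    (a b : ℝ) (hab : a ≤ b) (N : ℕ) (c : ℕ → ℂ) :
    |(∫ t in a..b, ‖dp N c t‖ ^ 2) - (b - a) * N2 N c| ≤ C₀ * N * (1 + Real.log N) * N2 N c := by
  rcases Nat.eq_zero_or_pos N with hN | hN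
  · subst hN
    simp [dp_zero, N2]
  · exact h a b hab N c hN

end

end Pool.Agent.Q150.UM
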