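import Pool.Agent.Q97.UM.Stm8

/-! # Project UM2 (helper97), job KRO (helper150): Kronecker's theorem at the simple zeros -/

set_option autoImplicit false

namespace Pool.Agent.Q150.UM

open Filter Topology MeasureTheory Complex
open Pool.Agent.Q97.UM
open scoped ComplexConjugate

/-- almost aligned unimodular numbers -/
theorem aligned {ι : Type*} (S : Finset ι) (u : ι → ℂ) (hu : ∀ j ∈ S, ‖u j‖ = 1) {δ : ℝ}
    (hw : (1 - δ) * (S.card : ℝ) ≤ ‖∑ j ∈ S, u j‖) :
    ∃ ω : ℂ, ∀ j ∈ S, ‖u j - ω‖ ^ 2 ≤ 2 * (δ * S.card) := by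
  set w := ∑ j ∈ S, u j with hwd
  obtain ⟨ω, hω, hwω⟩ : ∃ ω : ℂ, ‖ω‖ = 1 ∧ (w * conj ω).re = ‖w‖ := by
    by_cases h0 : w = 0
    · exact ⟨1, by simp, by simp [h0]⟩
    · have hn : (‖w‖ : ℂ) ≠ 0 := by exact_mod_cast norm_ne_zero_iff.2 h0
      refine ⟨w / ‖w‖, by simp [h0], ?_⟩
      rw [map_div₀, Complex.conj_ofReal, mul_div_assoc', Complex.mul_conj, Complex.normSq_eq_norm_sq]
      rw [← Complex.ofReal_div, Complex.ofReal_re]
      have : ‖w‖ ≠ 0 := norm_ne_zero_iff.2 h0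
      field_simp
  refine ⟨ω, fun j hj => ?_⟩
  have hterm : ∀ i ∈ S, 0 ≤ 1 - (u i * conj ω).re := by
    intro i hi
    have h1 : (u i * conj ω).re ≤ ‖u i * conj ω‖ := Complex.re_le_norm _
    rw [norm_mul, hu i hi, Complex.norm_conj, hω, mul_one] at h1
    linarith
  have hsum : ∑ i ∈ S, (1 - (u i * conj ω).re) = S.card - ‖w‖ := by
    rw [Finset.sum_sub_distrib, ← hwω, hwd, Finset.sum_mul, Complex.re_sum]
    simp
  have hle : 1 - (u j * conj ω).re ≤ δ * S.card := by
    have h1 := Finset.single_le_sum hterm hj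
    rw [hsum] at h1
    linarith
  have hsq : ‖u j - ω‖ ^ 2 = 2 - 2 * (u j * conj ω).re := by
    rw [← Complex.normSq_eq_norm_sq, Complex.normSq_sub, Complex.normSq_eq_norm_sq,
      Complex.normSq_eq_norm_sq, hu j hj, hω]
    ring
  rw [hsq]
  linarith

/-- the completely multiplicative function -/
noncomputable def chi (z : ℕ → ℂ) (n : ℕ) : ℂ :=
  if n = 0 then 0 else n.factorization.prod fun p k => (conj (z p)) ^ k

theorem chi_one (z : ℕ → ℂ) : chi z 1 = 1 := by simp [chi]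

theorem chi_mul (z : ℕ → ℂ) (m n : ℕ) : chi z (m * n) = chi z m * chi z n := by
  unfold chi
  by_cases hm : m = 0
  · simp [hm]
  by_cases hn : n = 0
  · simp [hn]
  rw [if_neg (mul_ne_zero hm hn), if_neg hm, if_neg hn, Nat.factorization_mul hm hn]
  exact Finsupp.prod_add_index' (fun p => pow_zero _) (fun p a b => pow_add _ _ _)

theorem chi_norm {z : ℕ → ℂ} (hz : ∀ p, ‖z p‖ = 1) (n : ℕ) : ‖chi z n‖ ≤ 1 := by
  unfold chi
  split_ifs with h
  · simp
  · rw [Finsupp.prod, norm_prod]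
    apply le_of_eq
    apply Finset.prod_eq_one
    intro p _
    rw [norm_pow, Complex.norm_conj, hz, one_pow]

theorem chi_prime (z : ℕ → ℂ) {p : ℕ} (hp : p.Prime) : chi z p = conj (z p) := by
  unfold chi
  rw [if_neg hp.ne_zero, hp.factorization]
  simp

open Classical in
/-- the coefficients -/
noncomputable def bb (z : ℕ → ℂ) (n : ℕ) : ℂ :=
  if n = 1 then 1 else if n.Prime then (Real.sqrt n : ℂ) * z n else 0

open Classical in
/-- the unimodular terms -/
noncomputable def uu (z : ℕ → ℂ) (t : ℝ) (n : ℕ) : ℂ :=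
  if n = 1 then 1 else z n * (n : ℂ) ^ (-(t * I))

theorem bb_term (z : ℕ → ℂ) {n : ℕ} (hn : n = 1 ∨ n.Prime) (t : ℝ) :
    bb z n * (n : ℂ) ^ (-(1 / 2 + t * I)) = uu z t n := by
  unfold bb uu
  rcases hn with rfl | hn
  · simp
  · have h1 : n ≠ 1 := hn.ne_one
    have h0 : (n : ℂ) ≠ 0 := by exact_mod_cast hn.ne_zero
    rw [if_neg h1, if_pos hn, if_neg h1, neg_add, Complex.cpow_add _ _ h0]
    have h2 : (Real.sqrt n : ℂ) * (n : ℂ) ^ (-(1 / 2 : ℂ)) = 1 := by
      have e : (Real.sqrt n : ℂ) = (n : ℂ) ^ (1 / 2 : ℂ) := by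
        rw [Real.sqrt_eq_rpow, Complex.ofReal_cpow (Nat.cast_nonneg n)]
        push_cast
        rfl
      rw [e, ← Complex.cpow_add _ _ h0]
      simp
    calc (Real.sqrt n : ℂ) * z n * ((n : ℂ) ^ (-(1 / 2 : ℂ)) * (n : ℂ) ^ (-(t * I))) =
        ((Real.sqrt n : ℂ) * (n : ℂ) ^ (-(1 / 2 : ℂ))) * (z n * (n : ℂ) ^ (-(t * I))) := by ring
      _ = _ := by rw [h2, one_mul]

theorem norm_pI {n : ℕ} (hn : 0 < n) (t : ℝ) : ‖(n : ℂ) ^ (t * I)‖ = 1 := by
  rw [Complex.norm_natCast_cpow_of_pos hn]; simp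

theorem norm_pI' {n : ℕ} (hn : 0 < n) (t : ℝ) : ‖(n : ℂ) ^ (-(t * I))‖ = 1 := by
  rw [Complex.norm_natCast_cpow_of_pos hn]; simp

theorem t_KRO : J_KRO := by
  classical
  intro hS ε hε hε1
  obtain ⟨κ0, hκ0, hev⟩ := hS
  refine ⟨Real.sqrt (κ0 * ε ^ 2 / 16), by positivity, ?_⟩
  have hLL : ∀ᶠ T : ℝ in atTop, 1 ≤ Real.log (Real.log T) :=
    (Real.tendsto_log_atTop.comp Real.tendsto_log_atTop).eventually_ge_atTop 1
  have hL : ∀ᶠ T : ℝ in atTop, 1 ≤ Real.log T := Real.tendsto_log_atTop.eventually_ge_atTop 1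
  filter_upwards [hev, hLL, hL] with T hT hT1 hT2 P hP z hz
  rcases Nat.eq_zero_or_pos P with rfl | hP0
  · obtain ⟨s, hs, -⟩ := hT 0 (1 / 2) (by norm_num) (by norm_num)
      (by rw [Nat.cast_zero, zero_mul]; positivity) (fun _ => 0)
      (chi z) (chi_one z) (chi_mul z) (chi_norm hz)
    exact ⟨s, hs, fun p hp hp0 => absurd (Nat.le_zero.1 hp0) hp.ne_zero⟩
  · let S : Finset ℕ := (Finset.Icc 1 P).filter fun n => n = 1 ∨ n.Prime
    have h1S : 1 ∈ S := Finset.mem_filter.2 ⟨Finset.mem_Icc.2 ⟨le_rfl, hP0⟩, Or.inl rfl⟩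
    have hScard : (1:ℝ) ≤ S.card := by
      exact_mod_cast Finset.card_pos.2 ⟨1, h1S⟩
    have hScard2 : (S.card : ℝ) ≤ P := by
      have : S.card ≤ P := by
        calc S.card ≤ (Finset.Icc 1 P).card := Finset.card_filter_le _ _
          _ = P := by simp
      exact_mod_cast this
    set δ : ℝ := ε ^ 2 / (8 * S.card) with hδ
    have hδ0 : 0 < δ := by positivity
    have hδS : δ * S.card = ε ^ 2 / 8 := by rw [hδ]; field_simp
    have hδ1 : δ < 1 := by
      have : δ ≤ δ * S.card := le_mul_of_one_le_right hδ0.le hScard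
      rw [hδS] at this
      nlinarith
    -- the size condition
    have hcond : (P : ℝ) * Real.log (Real.log T) ^ 2 ≤ κ0 * δ * Real.log T := by
      have h2 : ((P : ℝ) * Real.log (Real.log T)) ^ 2 ≤ κ0 * ε ^ 2 / 16 * Real.log T := by
        have h3 := pow_le_pow_left₀ (by positivity) hP 2
        rw [mul_pow (Real.sqrt _), Real.sq_sqrt (by positivity), Real.sq_sqrt (by positivity)] at h3
        exact h3
      have h4 : κ0 * δ * Real.log T = κ0 * ε ^ 2 * Real.log T / (8 * S.card) := by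
        rw [hδ]; ring
      rw [h4, le_div_iff₀ (by positivity)]
      have h5 : (P : ℝ) * Real.log (Real.log T) ^ 2 * (8 * S.card) ≤
          (P : ℝ) * Real.log (Real.log T) ^ 2 * (8 * P) :=
        mul_le_mul_of_nonneg_left (by linarith) (by positivity)
      have h6 : 0 ≤ κ0 * ε ^ 2 * Real.log T := by positivity
      nlinarith
    obtain ⟨s, hs, hsw⟩ := hT P δ hδ0 hδ1 hcond (bb z) (chi z) (chi_one z) (chi_mul z)
      (chi_norm hz)
    refine ⟨s, hs, fun p hp hpP => ?_⟩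
    -- the two sums
    have hsum1 : ∑ n ∈ Finset.Icc 1 P, bb z n * chi z n / (Real.sqrt n : ℂ) = (S.card : ℂ) := by
      rw [Finset.card_eq_sum_ones, Nat.cast_sum, Finset.sum_filter]
      refine Finset.sum_congr rfl fun n hn => ?_
      by_cases h1 : n = 1
      · subst h1
        simp [bb, chi_one]
      · by_cases h2 : n.Prime
        · rw [if_pos (Or.inr h2), chi_prime z h2, bb, if_neg h1, if_pos h2]
          have h3 : (Real.sqrt n : ℂ) ≠ 0 := by
            have : 0 < (n:ℝ) := by exact_mod_cast h2.pos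
            exact_mod_cast (Real.sqrt_pos.2 this).ne'
          have h4 : z n * conj (z n) = 1 := by
            rw [Complex.mul_conj, Complex.normSq_eq_norm_sq, hz]; simp
          rw [mul_assoc, h4, mul_one, div_self h3]; simp
        · rw [if_neg (by tauto), bb, if_neg h1, if_neg h2]; simp
    have hsum2 : dp P (bb z) s.im = ∑ n ∈ S, uu z s.im n := by
      unfold dp
      rw [Finset.sum_filter]
      refine Finset.sum_congr rfl fun n hn => ?_
      by_cases h12 : n = 1 ∨ n.Prime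
      · rw [if_pos h12, bb_term z h12]
      · rw [if_neg h12]
        push Not at h12
        rw [bb, if_neg h12.1, if_neg h12.2, zero_mul]
    rw [hsum1, hsum2, Complex.norm_natCast] at hsw
    have hun : ∀ n ∈ S, ‖uu z s.im n‖ = 1 := by
      intro n hn
      simp only [S, Finset.mem_filter, Finset.mem_Icc] at hn
      unfold uu
      split_ifs with h
      · simp
      · rw [norm_mul, hz, norm_pI' (by omega), one_mul]
    obtain ⟨ω, hω⟩ := aligned S (uu z s.im) hun hsw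
    have hpS : p ∈ S := by
      simp only [S, Finset.mem_filter, Finset.mem_Icc]
      exact ⟨⟨hp.one_lt.le, hpP⟩, Or.inr hp⟩
    have hhalf : ∀ n ∈ S, ‖uu z s.im n - ω‖ ≤ ε / 2 := by
      intro n hn
      have h1 := hω n hn
      rw [hδS] at h1
      apply le_of_sq_le_sq _ (by positivity)
      nlinarith
    have hu1 : uu z s.im 1 = 1 := by simp [uu]
    have hup : uu z s.im p = z p * (p : ℂ) ^ (-(s.im * I)) := by
      unfold uu; rw [if_neg hp.ne_one]
    have h1 := hhalf 1 h1S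
    have h2 := hhalf p hpS
    rw [hu1] at h1
    rw [hup] at h2
    have h3 : ‖1 - z p * (p : ℂ) ^ (-(s.im * I))‖ ≤ ε := by
      calc ‖1 - z p * (p : ℂ) ^ (-(s.im * I))‖ =
          ‖(1 - ω) - (z p * (p : ℂ) ^ (-(s.im * I)) - ω)‖ := by congr 1; ring
        _ ≤ ‖1 - ω‖ + ‖z p * (p : ℂ) ^ (-(s.im * I)) - ω‖ := norm_sub_le _ _
        _ ≤ ε / 2 + ε / 2 := add_le_add h1 h2
        _ = ε := by ring
    have h0 : (p : ℂ) ≠ 0 := by exact_mod_cast hp.ne_zero
    have h4 : (p : ℂ) ^ (s.im * I) - z p = (p : ℂ) ^ (s.im * I) *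
        (1 - z p * (p : ℂ) ^ (-(s.im * I))) := by
      have h5 : (p : ℂ) ^ (s.im * I) * (p : ℂ) ^ (-(s.im * I)) = 1 := by
        rw [← Complex.cpow_add _ _ h0]; simp
      calc (p : ℂ) ^ (s.im * I) - z p = (p : ℂ) ^ (s.im * I) -
          z p * ((p : ℂ) ^ (s.im * I) * (p : ℂ) ^ (-(s.im * I))) := by rw [h5, mul_one]
        _ = _ := by ring
    rw [h4, norm_mul, norm_pI hp.pos, one_mul]
    exact h3

end Pool.Agent.Q150.UM
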