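import Pool.Agent.Q150.UM.PUb

set_option autoImplicit false

/-!
# Project UM2 of helper97, job PU (helper150), part 3: assembly
-/

namespace Pool.Agent.Q150.UM

open Filter Topology MeasureTheory Complex
open scoped ComplexConjugate
open Pool.Agent.Q97.UM

noncomputable section

variable {w : ℝ → ℝ} {δ D L : ℝ}

/-- the polynomial restricted to `[1, N]` -/
def cut (N : ℕ) (b : ℕ → ℂ) (n : ℕ) : ℂ := if n ≤ N then b n else 0

lemma dp_cut (N : ℕ) (b : ℕ → ℂ) (t : ℝ) : dp N (cut N b) t = dp N b t := by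
  unfold dp cut
  refine Finset.sum_congr rfl fun n hn => ?_
  rw [Finset.mem_Icc] at hn
  rw [if_pos hn.2]

lemma N2_cut (N : ℕ) (b : ℕ → ℂ) : N2 N (cut N b) = N2 N b := by
  unfold N2 cut
  refine Finset.sum_congr rfl fun n hn => ?_
  rw [Finset.mem_Icc] at hn
  rw [if_pos hn.2]

lemma MM_le (u : ℝ) : (MM δ L u : ℝ) ≤ Real.exp (max u 0 + 2 * δ * L + 3 * Real.sqrt L) :=
  Nat.floor_le (Real.exp_pos _).le

lemma MM_pos (hδ : 0 < δ) (hL : 1 ≤ L) (u : ℝ) : 1 ≤ MM δ L u := by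
  unfold MM
  rw [Nat.one_le_floor_iff]
  refine Real.one_le_exp ?_
  have := le_max_right u 0
  positivity

lemma log_MM_ge (hδ : 0 < δ) (hL : 1 ≤ L) (u : ℝ) : u + 2 * δ * L ≤ Real.log (MM δ L u) := by
  have h1 := MM_pos hδ hL u
  have h1' : (1 : ℝ) ≤ MM δ L u := by exact_mod_cast h1
  have hsq : 1 ≤ Real.sqrt L := by
    rw [Real.one_le_sqrt]
    exact hL
  have hu := le_max_left u 0
  have hu0 := le_max_right u 0
  set y := max u 0 + 2 * δ * L + 3 * Real.sqrt L with hy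
  have hy3 : 3 ≤ y := by
    have : 0 ≤ 2 * δ * L := by positivity
    linarith
  have h2 : Real.exp y - 1 < MM δ L u := by
    have := Nat.lt_floor_add_one (Real.exp y)
    have e : MM δ L u = ⌊Real.exp y⌋₊ := rfl
    rw [e]
    linarith
  have h3 : Real.exp (y - 1) ≤ Real.exp y - 1 := by
    have e1 : Real.exp y = Real.exp (y - 1) * Real.exp 1 := by
      rw [← Real.exp_add]
      congr 1
      ring
    have e2 : 2 ≤ Real.exp 1 := by
      have := Real.add_one_le_exp (1 : ℝ)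
      linarith
    have e3 : 1 ≤ Real.exp (y - 1) := Real.one_le_exp (by linarith)
    rw [e1]
    nlinarith
  have h4 : y - 1 ≤ Real.log (MM δ L u) := by
    rw [Real.le_log_iff_exp_le (by linarith)]
    linarith
  linarith

lemma log_MM_le (hδ : 0 < δ) (hL : 1 ≤ L) (u : ℝ) : Real.log (MM δ L u) ≤ max u 0 + 2 * δ * L + 3 * Real.sqrt L := by
  have h1 := MM_pos hδ hL u
  have h1' : (1 : ℝ) ≤ MM δ L u := by exact_mod_cast h1
  rw [Real.log_le_iff_le_exp (by linarith)]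
  exact MM_le u

/-- the arithmetic part -/
lemma arith (hDQ : QB w δ D L) (hD : 1 ≤ D) (hδ : 0 < δ) (hδ1 : δ ≤ 1 / 16) (hL : 1 ≤ L) (hL36 : 36 ≤ L) {C₃ C₄ : ℝ} (hC₃ : 1 ≤ C₃)
    (hM : MerC C₃) (hC₄ : 1 ≤ C₄) (hC : ConvC C₄) {θ : ℝ} (hθ : 0 < θ) (hθ1 : θ ≤ 1 / 40) (N : ℕ) (hN1 : 1 ≤ N)
    (hN : Real.log N ≤ θ * L) (b : ℕ → ℂ) (u : ℝ) (hu1 : -L ≤ u) (hu2 : u ≤ L) (hX : max u 0 + 2 * δ * L ≤ L) :
    |N2 (N * MM δ L u) (cv (al' w L u (MM δ L u)) (cut N b)) - max u 0 / L * I2 w * N2 N b| ≤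
      ((C₄ + 3) * (δ + Real.sqrt θ) * I2 w +
      (2 * (234 * C₃ * D ^ 2 + 11 * D ^ 2) + (D + 39 * C₃ * D ^ 2) + C₄ * (D + 39 * C₃ * D ^ 2) +
        C₄ / Real.sqrt θ * (I2 w + (D + 39 * C₃ * D ^ 2)) + 3 * C₄ / Real.sqrt θ * D ^ 2) / L) * N2 N b := by
  have hL0 : 0 < L := by linarith
  have hD0 : 0 ≤ D := by linarith
  have hu : |u| ≤ L := abs_le.2 ⟨hu1, hu2⟩
  have hsq : Real.sqrt L ≤ L / 6 := by
    rw [Real.sqrt_le_left (by positivity)]
    nlinarith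
  obtain ⟨M, hMM⟩ : ∃ M : ℕ, M = MM δ L u := ⟨_, rfl⟩
  rw [← hMM]
  have hM1 : 1 ≤ M := hMM ▸ MM_pos hδ hL u
  have hM1' : (1 : ℝ) ≤ M := by exact_mod_cast hM1
  have hN1' : (1 : ℝ) ≤ N := by exact_mod_cast hN1
  have hlM := log_MM_le hδ hL u
  have hlM' := log_MM_ge hδ hL u
  rw [← hMM] at hlM hlM'
  have hlM2 : Real.log M ≤ 3 / 2 * L := by linarith
  have hlM0 : 0 ≤ Real.log M := Real.log_nonneg hM1'
  have hlN0 : 0 ≤ Real.log N := Real.log_nonneg hN1'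
  have hl2 : Real.log 2 ≤ 1 := by
    have := Real.log_le_sub_one_of_pos (show (0 : ℝ) < 2 by norm_num)
    linarith
  have hl20 : 0 ≤ Real.log 2 := Real.log_nonneg (by norm_num)
  -- the coefficients
  have hα : ∀ n, ‖al' w L u M n‖ ≤ ArithmeticFunction.vonMangoldt n * (|QL w L (Real.log n - u)| / L) := by
    intro n
    unfold al'
    split_ifs
    · rw [Complex.norm_real, Real.norm_eq_abs, abs_mul, abs_of_nonneg ArithmeticFunction.vonMangoldt_nonneg, abs_div, abs_of_pos hL0]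
    · rw [norm_zero]
      exact mul_nonneg ArithmeticFunction.vonMangoldt_nonneg (by positivity)
  have hconv := hC N M (cut N b) (al' w L u M) (fun n => |QL w L (Real.log n - u)| / L) (D / L) (Real.sqrt θ) hN1 hM1
    (Real.sqrt_pos.2 hθ) (by rw [Real.sqrt_le_one]; linarith) (fun n => ⟨by positivity, div_le_div_of_nonneg_right (hDQ.bdd _) hL0.le⟩)
    hα (fun n hn => by unfold al'; rw [if_neg (by omega)]) (fun n hn => by unfold cut; rw [if_neg (by omega)])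
  -- sums over primes
  have hprime : ∀ p ∈ (Finset.Icc 1 M).filter Nat.Prime, ‖al' w L u M p‖ ^ 2 / p =
      Real.log p ^ 2 * QL w L (Real.log p - u) ^ 2 / (L ^ 2 * p) := by
    intro p hp
    rw [Finset.mem_filter, Finset.mem_Icc] at hp
    unfold al'
    rw [if_pos hp.1.2, Complex.norm_real, Real.norm_eq_abs, sq_abs, ArithmeticFunction.vonMangoldt_apply_prime hp.2]
    have hp0 : (p : ℝ) ≠ 0 := by exact_mod_cast hp.2.ne_zero
    field_simp
  set f : ℕ → ℝ := fun p => Real.log p ^ 2 * QL w L (Real.log p - u) ^ 2 / (L ^ 2 * p) with hf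
  have hbig : bigP N M = ((Finset.Icc 1 M).filter Nat.Prime).filter (fun p => N < p) := by
    unfold bigP
    rw [Finset.filter_filter]
  have hsmall : smallP N M = ((Finset.Icc 1 M).filter Nat.Prime).filter (fun p => ¬ N < p) := by
    unfold smallP
    rw [Finset.filter_filter]
    simp only [not_lt]
  have hsumS1 : ∑ p ∈ bigP N M, ‖al' w L u M p‖ ^ 2 / p = ∑ p ∈ bigP N M, f p := by
    refine Finset.sum_congr rfl fun p hp => hprime p ?_
    rw [hbig] at hp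
    exact (Finset.mem_filter.1 hp).1
  have hsplit : ∑ p ∈ bigP N M, f p + ∑ p ∈ smallP N M, f p = ∑ p ∈ (Finset.Icc 1 M).filter Nat.Prime, f p := by
    rw [hbig, hsmall]
    exact Finset.sum_filter_add_sum_filter_not _ _ _
  set g : ℕ → ℝ := fun p => Real.log p * QL w L (Real.log p - u) ^ 2 / (L * p) with hg
  have hsm2 : smallP N M = (Finset.Icc 1 (min N M)).filter Nat.Prime := by
    unfold smallP
    ext p
    simp only [Finset.mem_filter, Finset.mem_Icc, le_min_iff]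
    tauto
  have hg0 : ∀ p ∈ smallP N M, 0 ≤ g p := by
    intro p hp
    unfold smallP at hp
    rw [Finset.mem_filter, Finset.mem_Icc] at hp
    have : (1 : ℝ) ≤ p := by exact_mod_cast hp.1.1
    have := Real.log_nonneg this
    simp only [hg]
    positivity
  have hA : ∑ p ∈ smallP N M, g p ≤ I2 w + (D + 39 * C₃ * D ^ 2) / L := by
    rw [hsm2]
    refine merB hM hDQ hD0 hL0 u hu (min N M) (le_min hN1 hM1) ?_
    have h1 : Real.log ((min N M : ℕ) : ℝ) ≤ Real.log M := by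
      refine Real.log_le_log ?_ (by exact_mod_cast min_le_right N M)
      exact_mod_cast (le_min hN1 hM1 : 1 ≤ min N M)
    linarith
  have hfg : ∀ p ∈ smallP N M, f p ≤ θ * g p := by
    intro p hp
    have hg0' := hg0 p hp
    unfold smallP at hp
    rw [Finset.mem_filter, Finset.mem_Icc] at hp
    have hp1 : (1 : ℝ) ≤ p := by exact_mod_cast hp.1.1
    have h1 : Real.log p ≤ θ * L := le_trans (Real.log_le_log (by linarith) (by exact_mod_cast hp.2.2)) hN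
    have h2 : f p = Real.log p / L * g p := by
      simp only [hf, hg]
      have : (p : ℝ) ≠ 0 := by linarith
      field_simp
    rw [h2]
    refine mul_le_mul_of_nonneg_right ?_ hg0'
    rw [div_le_iff₀ hL0]
    exact h1
  have hSsm : ∑ p ∈ smallP N M, f p ≤ θ * ∑ p ∈ smallP N M, g p := by
    rw [Finset.mul_sum]
    exact Finset.sum_le_sum hfg
  have hSsm0 : 0 ≤ ∑ p ∈ smallP N M, f p := by
    refine Finset.sum_nonneg fun p hp => ?_
    simp only [hf]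
    positivity
  have hA0 : 0 ≤ ∑ p ∈ smallP N M, g p := Finset.sum_nonneg hg0
  have hSig : ∑ p ∈ smallP N M, Real.log p * (|QL w L (Real.log p - u)| / L) ^ 2 / p = (∑ p ∈ smallP N M, g p) / L := by
    rw [Finset.sum_div]
    refine Finset.sum_congr rfl fun p hp => ?_
    unfold smallP at hp
    rw [Finset.mem_filter, Finset.mem_Icc] at hp
    have hp1 : (p : ℝ) ≠ 0 := by
      have : (1 : ℝ) ≤ p := by exact_mod_cast hp.1.1
      linarith
    simp only [hg]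
    rw [div_pow, sq_abs]
    field_simp
  have hall := merA hM hDQ hD0 hL0 u hu M hM1 (by linarith)
  have hmi := main_int hDQ hD0 hδ hL u (Real.log M) hu2 hlM0 hlM'
  have hsq' := abs_le.1 hDQ.sq
  have hJ : |(∫ x in (0 : ℝ)..Real.log M, x * QL w L (x - u) ^ 2) / L ^ 2 - max u 0 / L * I2 w| ≤
      2 * δ * I2 w + 11 * D ^ 2 / L := by
    set J := ∫ x in (0 : ℝ)..Real.log M, x * QL w L (x - u) ^ 2 with hJ
    set Q2 := ∫ y : ℝ, QL w L y ^ 2 with hQ2
    have hup : 0 ≤ max u 0 := le_max_right _ _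
    have hup2 : max u 0 ≤ L := max_le hu2 hL0.le
    have h1 : |J - max u 0 * (L * I2 w)| ≤ 2 * δ * L ^ 2 * I2 w + 11 * L * D ^ 2 := by
      have e1 : J - max u 0 * (L * I2 w) = (J - max u 0 * Q2) + max u 0 * (Q2 - L * I2 w) := by ring
      rw [e1]
      refine (abs_add_le _ _).trans ?_
      rw [abs_mul, abs_of_nonneg hup]
      have h2 : max u 0 * |Q2 - L * I2 w| ≤ L * D := mul_le_mul hup2 hDQ.sq (abs_nonneg _) hL0.le
      have h3 : 2 * δ * L * Q2 ≤ 2 * δ * L * (L * I2 w + D) := mul_le_mul_of_nonneg_left (by linarith) (by positivity)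
      have h4 : 2 * δ * L * D ≤ L * D := by
        have : 2 * δ ≤ 1 := by linarith
        have h5 : 2 * δ * (L * D) ≤ 1 * (L * D) := mul_le_mul_of_nonneg_right this (by positivity)
        linarith
      have h5 : L * D ≤ L * D ^ 2 := by
        refine mul_le_mul_of_nonneg_left ?_ hL0.le
        nlinarith
      have h6 : 2 * δ * L * (L * I2 w + D) = 2 * δ * L ^ 2 * I2 w + 2 * δ * L * D := by ring
      linarith
    have h2 : J / L ^ 2 - max u 0 / L * I2 w = (J - max u 0 * (L * I2 w)) / L ^ 2 := by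
      field_simp
    rw [h2, abs_div, abs_of_pos (show 0 < L ^ 2 by positivity), div_le_iff₀ (by positivity)]
    refine h1.trans (le_of_eq ?_)
    field_simp
  have hlog1 : Real.log (2 * (N : ℝ)) ≤ 1 + θ * L := by
    rw [Real.log_mul (by norm_num) (by linarith)]
    linarith
  have hlog2 : Real.log (2 * (N : ℝ) * M) = Real.log 2 + Real.log N + Real.log M := by
    rw [Real.log_mul (by positivity) (by linarith), Real.log_mul (by norm_num) (by linarith)]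
  rw [hsumS1, N2_cut, hSig] at hconv
  have hθL : θ * L ≤ L / 40 := by
    have := mul_le_mul_of_nonneg_right hθ1 hL0.le
    linarith
  refine numPU (S1 := ∑ p ∈ bigP N M, f p) (Ssm := ∑ p ∈ smallP N M, f p) (A := ∑ p ∈ smallP N M, g p)
    (J2 := (∫ x in (0 : ℝ)..Real.log M, x * QL w L (x - u) ^ 2) / L ^ 2) (θ := θ) (lN := Real.log (2 * N))
    (lNM := Real.log (2 * N * M))
    (N2_nonneg N b) hL (Real.sqrt_pos.2 hθ) (by rw [Real.sqrt_le_one]; linarith)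
    (Real.sq_sqrt hθ.le).symm (I2_nonneg w) hC₄ (by positivity) (by positivity) (by positivity) hδ.le (by linarith)
    ((div_le_one hL0).2 (max_le hu2 hL0.le)) hA0 hA hSsm0 hSsm (by rw [hsplit]; exact hall) hJ hconv hlog1 ?_ ?_
  · rw [hlog2]
    positivity
  · rw [hlog2]
    linarith

/-- the numerical end -/
lemma numF {IP Idp IV yx T n2 X₀ E ul I₂ c R K₂ ε ε₂ L : ℝ} (hT : 0 ≤ T) (hn2 : 0 ≤ n2) (hL : 0 < L) (hX0 : 0 ≤ X₀)
    (h1 : |IP - Idp| ≤ 1 / L * Idp + 2 * (1 / L) * IV) (h2 : |Idp - yx * X₀| ≤ E * X₀) (hE : E ≤ ε₂ * T)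
    (hyx0 : 0 ≤ yx) (hyx : yx ≤ 4 * T) (h3 : |X₀ - ul * I₂ * n2| ≤ (c + R / L) * n2) (hK : X₀ ≤ K₂ * n2)
    (hK0 : 0 ≤ K₂) (hIV : IV ≤ 5 * T * n2) (hε : 0 < ε) (hε₂0 : 0 ≤ ε₂) (hε₂ : ε₂ ≤ 1) (hε₂' : ε₂ * K₂ ≤ ε / 2)
    (hR : (4 * R + 5 * K₂ + 10) / L ≤ ε / 2) :
    |IP - yx * ul * I₂ * n2| ≤ (4 * c + ε) * T * n2 := by
  have hTn : 0 ≤ T * n2 := by positivity
  have hIdp : Idp ≤ 5 * K₂ * (T * n2) := by
    have e1 := (abs_le.1 h2).2
    have e2 : E * X₀ ≤ ε₂ * T * X₀ := mul_le_mul_of_nonneg_right hE hX0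
    have e3 : ε₂ * T * X₀ ≤ 1 * T * X₀ := mul_le_mul_of_nonneg_right (mul_le_mul_of_nonneg_right hε₂ hT) hX0
    have e4 : yx * X₀ ≤ 4 * T * X₀ := mul_le_mul_of_nonneg_right hyx hX0
    have e5 : 5 * T * X₀ ≤ 5 * T * (K₂ * n2) := mul_le_mul_of_nonneg_left hK (by positivity)
    have e6 : 5 * T * (K₂ * n2) = 5 * K₂ * (T * n2) := by ring
    linarith
  have a1 : 1 / L * Idp + 2 * (1 / L) * IV ≤ (5 * K₂ + 10) / L * (T * n2) := by
    have e1 : 1 / L * Idp ≤ 1 / L * (5 * K₂ * (T * n2)) := mul_le_mul_of_nonneg_left hIdp (by positivity)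
    have e2 : 2 * (1 / L) * IV ≤ 2 * (1 / L) * (5 * T * n2) := mul_le_mul_of_nonneg_left hIV (by positivity)
    have e3 : (5 * K₂ + 10) / L * (T * n2) = 1 / L * (5 * K₂ * (T * n2)) + 2 * (1 / L) * (5 * T * n2) := by ring
    linarith
  have a2 : E * X₀ ≤ ε / 2 * (T * n2) := by
    have e2 : E * X₀ ≤ ε₂ * T * X₀ := mul_le_mul_of_nonneg_right hE hX0
    have e3 : ε₂ * T * X₀ ≤ ε₂ * T * (K₂ * n2) := mul_le_mul_of_nonneg_left hK (by positivity)
    have e4 : ε₂ * T * (K₂ * n2) = ε₂ * K₂ * (T * n2) := by ring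
    have e5 := mul_le_mul_of_nonneg_right hε₂' hTn
    linarith
  have a3 : yx * |X₀ - ul * I₂ * n2| ≤ 4 * T * ((c + R / L) * n2) := mul_le_mul hyx h3 (abs_nonneg _) (by positivity)
  have e0 : IP - yx * ul * I₂ * n2 = (IP - Idp) + (Idp - yx * X₀) + yx * (X₀ - ul * I₂ * n2) := by ring
  rw [e0]
  have b1 := abs_add_le ((IP - Idp) + (Idp - yx * X₀)) (yx * (X₀ - ul * I₂ * n2))
  have b2 := abs_add_le (IP - Idp) (Idp - yx * X₀)
  rw [abs_mul yx, abs_of_nonneg hyx0] at b1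
  have b3 := mul_le_mul_of_nonneg_right hR hTn
  have b4 : (4 * R + 5 * K₂ + 10) / L * (T * n2) = 4 * (R / L) * (T * n2) + (5 * K₂ + 10) / L * (T * n2) := by ring
  have b5 : 4 * T * ((c + R / L) * n2) = 4 * c * (T * n2) + 4 * (R / L) * (T * n2) := by ring
  have b6 : (4 * c + ε) * T * n2 = 4 * c * (T * n2) + ε / 2 * (T * n2) + ε / 2 * (T * n2) := by ring
  linarith

/-- the length of the product -/
lemma len_le {C₁ ε₂ θ T : ℝ} (hC₁ : 1 ≤ C₁) (hε₂ : 0 < ε₂) (hδ : 0 < δ) (hθ : 0 < θ) (hL : 1 ≤ L) (hT : T = Real.exp L)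
    (hL2 : 9 / δ ^ 2 ≤ L) (hL3 : 4 * C₁ / (δ ^ 2 * ε₂) ≤ L) (N : ℕ) (hN1 : 1 ≤ N) (hN : (N : ℝ) ≤ Real.exp (θ * L)) (u : ℝ)
    (hu : max u 0 ≤ (1 - 4 * δ - 2 * θ) * L) :
    C₁ * ((N * MM δ L u : ℕ) : ℝ) * (1 + Real.log ((N * MM δ L u : ℕ) : ℝ)) ≤ ε₂ * T := by
  have hL0 : 0 < L := by linarith
  have hN1' : (1 : ℝ) ≤ N := by exact_mod_cast hN1
  have hM1 : (1 : ℝ) ≤ MM δ L u := by exact_mod_cast MM_pos hδ hL u
  have hsq : 3 * Real.sqrt L ≤ δ * L := by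
    have h1 : Real.sqrt L ≤ δ * L / 3 := by
      rw [Real.sqrt_le_left (by positivity)]
      rw [div_le_iff₀ (by positivity)] at hL2
      nlinarith
    linarith
  have hprod : ((N * MM δ L u : ℕ) : ℝ) ≤ Real.exp ((1 - δ) * L) := by
    push_cast
    calc (N : ℝ) * MM δ L u ≤ Real.exp (θ * L) * Real.exp (max u 0 + 2 * δ * L + 3 * Real.sqrt L) :=
          mul_le_mul hN (MM_le u) (by linarith) (Real.exp_pos _).le
      _ = Real.exp (θ * L + (max u 0 + 2 * δ * L + 3 * Real.sqrt L)) := (Real.exp_add _ _).symm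
      _ ≤ Real.exp ((1 - δ) * L) := by
        rw [Real.exp_le_exp]
        have : 0 ≤ θ * L := by positivity
        linarith
  have hp1 : (1 : ℝ) ≤ ((N * MM δ L u : ℕ) : ℝ) := by
    push_cast
    nlinarith
  have hlog : Real.log ((N * MM δ L u : ℕ) : ℝ) ≤ (1 - δ) * L := by
    rw [Real.log_le_iff_le_exp (by linarith)]
    exact hprod
  have h2 : 1 + Real.log ((N * MM δ L u : ℕ) : ℝ) ≤ 2 * L := by
    have : 0 ≤ δ * L := by positivity
    linarith
  have hlog0 : 0 ≤ Real.log ((N * MM δ L u : ℕ) : ℝ) := Real.log_nonneg hp1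
  have h3 : Real.exp ((1 - δ) * L) = Real.exp (-(δ * L)) * Real.exp L := by
    rw [← Real.exp_add]
    congr 1
    ring
  have h4 : Real.exp (-(δ * L)) ≤ 2 / (δ * L) ^ 2 := by
    have h5 := Real.quadratic_le_exp_of_nonneg (show 0 ≤ δ * L by positivity)
    rw [Real.exp_neg, inv_eq_one_div, div_le_div_iff₀ (Real.exp_pos _) (by positivity)]
    have : 0 ≤ δ * L := by positivity
    linarith
  have h5 : 2 * C₁ * L * Real.exp (-(δ * L)) ≤ ε₂ := by
    calc 2 * C₁ * L * Real.exp (-(δ * L)) ≤ 2 * C₁ * L * (2 / (δ * L) ^ 2) := mul_le_mul_of_nonneg_left h4 (by positivity)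
      _ = (4 * C₁ / (δ ^ 2 * ε₂)) / L * ε₂ := by
        field_simp
        ring
      _ ≤ 1 * ε₂ := mul_le_mul_of_nonneg_right ((div_le_one hL0).2 hL3) hε₂.le
      _ = ε₂ := one_mul _
  calc C₁ * ((N * MM δ L u : ℕ) : ℝ) * (1 + Real.log ((N * MM δ L u : ℕ) : ℝ)) ≤
      C₁ * (Real.exp (-(δ * L)) * Real.exp L) * (2 * L) :=
        mul_le_mul (mul_le_mul_of_nonneg_left (hprod.trans h3.le) (by linarith)) h2 (by linarith) (by positivity)
    _ = (2 * C₁ * L * Real.exp (-(δ * L))) * Real.exp L := by ring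
    _ ≤ ε₂ * Real.exp L := mul_le_mul_of_nonneg_right h5 (Real.exp_pos _).le
    _ = ε₂ * T := by rw [hT]

/-- **PU** -/
theorem t_PU : J_PU := by
  intro hQH hQLF hDPM hMV2 hCONV hMER
  obtain ⟨C₁, hC₁, hMV⟩ := hMV2
  obtain ⟨C₄, hC₄, hC⟩ := hCONV
  obtain ⟨C₃, hC₃, hM⟩ := hMER
  refine ⟨4 * (C₄ + 3), by linarith, ?_⟩
  intro δ H C K w θ ε hδ hδ1 hH hC1 hK hw hθ hθ1 hε
  obtain ⟨D, hD, hQB⟩ := qb_of hQH hQLF hδ (by linarith) hH hC1 hK hw
  have hI2 := I2_nonneg w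
  have hc1 := c1_nonneg
  have hrθ : 0 < Real.sqrt θ := Real.sqrt_pos.2 hθ
  have hrθ1 : Real.sqrt θ ≤ 1 := by rw [Real.sqrt_le_one]; linarith
  obtain ⟨R, hR⟩ : ∃ R : ℝ, R = 2 * (234 * C₃ * D ^ 2 + 11 * D ^ 2) + (D + 39 * C₃ * D ^ 2) + C₄ * (D + 39 * C₃ * D ^ 2) +
        C₄ / Real.sqrt θ * (I2 w + (D + 39 * C₃ * D ^ 2)) + 3 * C₄ / Real.sqrt θ * D ^ 2 := ⟨_, rfl⟩
  have hR0 : 0 ≤ R := by rw [hR]; positivity
  obtain ⟨K₂, hK₂⟩ : ∃ K₂ : ℝ, K₂ = I2 w + 2 * (C₄ + 3) * I2 w + R := ⟨_, rfl⟩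
  have hK₂0 : 0 ≤ K₂ := by rw [hK₂]; positivity
  obtain ⟨ε₂, hε₂⟩ : ∃ ε₂ : ℝ, ε₂ = min 1 (ε / (2 * (K₂ + 1))) := ⟨_, rfl⟩
  have hε₂0 : 0 < ε₂ := by rw [hε₂]; positivity
  have hε₂1 : ε₂ ≤ 1 := by rw [hε₂]; exact min_le_left _ _
  have hε₂K : ε₂ * K₂ ≤ ε / 2 := by
    have h1 : ε₂ ≤ ε / (2 * (K₂ + 1)) := by rw [hε₂]; exact min_le_right _ _
    have h2 := mul_le_mul_of_nonneg_right h1 hK₂0
    refine h2.trans ?_
    rw [div_mul_eq_mul_div, div_le_div_iff₀ (by positivity) (by norm_num)]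
    nlinarith [mul_nonneg hε.le hK₂0]
  filter_upwards [ev_log 36, ev_log (D * Real.exp 1 * c1), ev_log (9 / δ ^ 2), ev_log (4 * C₁ / (δ ^ 2 * ε₂)),
    ev_log ((4 * R + 5 * K₂ + 10) * (2 / ε)), ev_short C₁ 1 θ (by linarith) one_pos hθ1,
    eventually_ge_atTop (1 : ℝ)] with T hL36 hL2 hL3 hL4 hL5 hSh hT1 N hN b u x y hu1 hu2 hx hxy hy
  have hT0 : 0 < T := by linarith
  obtain ⟨L, hLT⟩ : ∃ L : ℝ, L = Real.log T := ⟨_, rfl⟩
  rw [← hLT] at hL36 hL2 hL3 hL4 hL5 hu1 hu2 ⊢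
  have hTL : T = Real.exp L := by rw [hLT, Real.exp_log hT0]
  have hL1 : 1 ≤ L := by linarith
  have hL0 : 0 < L := by linarith
  have hQ := hQB L hL1
  rcases Nat.eq_zero_or_pos N with hN0 | hN1
  · subst hN0
    have e1 : N2 0 b = 0 := by simp [N2]
    have e2 : ∫ t in x..y, ‖PL w L u t‖ ^ 2 * ‖dp 0 b t‖ ^ 2 = 0 := by
      simp [dp_zero]
    rw [e1, e2]
    simp
  have hNe : (N : ℝ) ≤ Real.exp (θ * L) := by
    refine hN.trans (le_of_eq ?_)
    rw [Real.rpow_def_of_pos hT0, ← hLT, mul_comm]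
  have hNlog : Real.log N ≤ θ * L := by
    rw [Real.log_le_iff_le_exp (by exact_mod_cast hN1)]
    exact hNe
  have hnn : 0 ≤ (1 - 4 * δ - 2 * θ) * L := mul_nonneg (by linarith) hL0.le
  have hup : max u 0 ≤ (1 - 4 * δ - 2 * θ) * L := max_le hu2 hnn
  have hδL : 0 ≤ δ * L := by positivity
  have hθL : 0 ≤ θ * L := by positivity
  have hX : max u 0 + 2 * δ * L ≤ L := by linarith
  have huL : u ≤ L := by linarith
  have har := arith hQ hD hδ hδ1 hL1 hL36 hC₃ hM hC₄ hC hθ hθ1 N hN1 hNlog b u hu1 huL hX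
  rw [← hR] at har
  have hlen := len_le hC₁ hε₂0 hδ hθ hL1 hTL hL3 hL4 N hN1 hNe u hup
  obtain ⟨M, hMM⟩ : ∃ M : ℕ, M = MM δ L u := ⟨_, rfl⟩
  have htail := tail_le hQ hD hδ hL1 u hX hL2
  have hM1 : 1 ≤ M := hMM ▸ MM_pos hδ hL1 u
  rw [← hMM] at har hlen htail
  -- the product
  have hprod : ∀ t, ‖dp M (al' w L u M) t‖ ^ 2 * ‖dp N b t‖ ^ 2 = ‖dp (N * M) (cv (al' w L u M) (cut N b)) t‖ ^ 2 := by
    intro t
    rw [← dp_cut N b t, ← mul_pow, ← norm_mul, hDPM.1 M N (al' w L u M) (cut N b) t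
      (fun n hn => by unfold al'; rw [if_neg (by omega)]) (fun n hn => by unfold cut; rw [if_neg (by omega)]), mul_comm M N]
  have hNM1 : 1 ≤ N * M := Nat.mul_pos hN1 hM1
  have hms := hMV x y hxy (N * M) (cv (al' w L u M) (cut N b)) hNM1
  have hVc : Continuous fun t => ‖dp N b t‖ ^ 2 := by
    have := dp_cont N b
    fun_prop
  have hV0 : ∀ t, 0 ≤ ‖dp N b t‖ ^ 2 := fun t => by positivity
  have hPc : Continuous (PL w L u) := PL_cont hQ (by linarith) (by positivity) hL0 u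
  have hdc : Continuous (dp M (al' w L u M)) := dp_cont _ _
  have hz := zu1 hxy hVc hV0 hPc hdc (fun t => dp M (al' w L u M) t - PL w L u t) (1 / L) (by positivity)
    ((div_le_one hL0).2 hL1) (fun t _ => by rw [norm_sub_rev]; exact htail t) (fun t _ => by rw [sub_sub_cancel])
  have hIdp : ∫ t in x..y, ‖dp M (al' w L u M) t‖ ^ 2 * ‖dp N b t‖ ^ 2 =
      ∫ t in x..y, ‖dp (N * M) (cv (al' w L u M) (cut N b)) t‖ ^ 2 := by
    refine intervalIntegral.integral_congr fun t _ => ?_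
    exact hprod t
  have hn2 := N2_nonneg N b
  have hIV : ∫ t in x..y, ‖dp N b t‖ ^ 2 ≤ 5 * T * N2 N b := by
    have h1 := (abs_le.1 (dp_ms hMV x y hxy N b)).2
    have h2 := mul_le_mul_of_nonneg_right (hSh N hN) hn2
    have h3 : (y - x) * N2 N b ≤ 4 * T * N2 N b := mul_le_mul_of_nonneg_right (by linarith) hn2
    linarith
  have hul0 : 0 ≤ max u 0 / L := by
    have := le_max_right u 0
    positivity
  have hul1 : max u 0 / L ≤ 1 := (div_le_one hL0).2 (max_le huL hL0.le)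
  have hKn : N2 (N * M) (cv (al' w L u M) (cut N b)) ≤ K₂ * N2 N b := by
    have h1 := (abs_le.1 har).2
    have h2 : max u 0 / L * I2 w * N2 N b + ((C₄ + 3) * (δ + Real.sqrt θ) * I2 w + R / L) * N2 N b ≤ K₂ * N2 N b := by
      rw [← add_mul]
      refine mul_le_mul_of_nonneg_right ?_ hn2
      rw [hK₂]
      have e1 : max u 0 / L * I2 w ≤ 1 * I2 w := mul_le_mul_of_nonneg_right hul1 hI2
      have e2 : (C₄ + 3) * (δ + Real.sqrt θ) * I2 w ≤ (C₄ + 3) * 2 * I2 w :=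
        mul_le_mul_of_nonneg_right (mul_le_mul_of_nonneg_left (by linarith) (by linarith)) hI2
      have e3 : R / L ≤ R := div_le_self hR0 hL1
      linarith
    linarith
  have hR' : (4 * R + 5 * K₂ + 10) / L ≤ ε / 2 := by
    rw [div_le_iff₀ hL0]
    have h1 := mul_le_mul_of_nonneg_left hL5 (show 0 ≤ ε / 2 by positivity)
    have h2 : ε / 2 * ((4 * R + 5 * K₂ + 10) * (2 / ε)) = 4 * R + 5 * K₂ + 10 := by
      field_simp
    linarith
  rw [hIdp] at hz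
  have hfin := numF (yx := y - x) (ul := max u 0 / L) (I₂ := I2 w) (c := (C₄ + 3) * (δ + Real.sqrt θ) * I2 w) hT0.le hn2 hL0
    (N2_nonneg _ _) hz hms hlen (by linarith) (by linarith) har hKn hK₂0 hIV hε hε₂0.le hε₂1 hε₂K hR'
  refine hfin.trans (le_of_eq ?_)
  ring

end

end Pool.Agent.Q150.UM
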