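import Pool.Agent.Q150.UM.ZU

set_option autoImplicit false

/-!
# Project UM2 of helper97, job PU (helper150), part 1: the main integral and the Mertens sums
-/

namespace Pool.Agent.Q150.UM

open Filter Topology MeasureTheory Complex
open scoped ComplexConjugate
open Pool.Agent.Q97.UM

noncomputable section

variable {w : ℝ → ℝ} {δ D L : ℝ}

lemma gauss_int (a : ℝ) : Integrable fun y : ℝ => Real.exp (-(y - a) ^ 2 / 2) := by
  have h1 : Integrable fun y : ℝ => Real.exp (-(1 / 2) * y ^ 2) := integrable_exp_neg_mul_sq (by norm_num)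
  have h2 := h1.comp_sub_right a
  refine h2.congr (Eventually.of_forall fun y => ?_)
  simp only
  congr 1
  ring

lemma gauss_le (a : ℝ) : ∫ y : ℝ, Real.exp (-(y - a) ^ 2 / 2) ≤ 3 := by
  have h1 : ∫ y : ℝ, Real.exp (-(y - a) ^ 2 / 2) = ∫ y : ℝ, Real.exp (-(1 / 2) * y ^ 2) := by
    rw [← integral_sub_right_eq_self (fun y : ℝ => Real.exp (-(1 / 2) * y ^ 2)) a]
    refine integral_congr_ae (Eventually.of_forall fun y => ?_)
    simp only
    congr 1
    ring
  rw [h1, integral_gaussian, Real.sqrt_le_left (by norm_num)]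
  have := Real.pi_lt_d2
  linarith

/-- pointwise bound for the tail of the square -/
lemma G_tail (hQ : QB w δ D L) (hD : 0 ≤ D) (y : ℝ) (hy : 2 * δ * L ≤ |y|) :
    QL w L y ^ 2 ≤ D ^ 2 * Real.exp (-(|y| - 2 * δ * L) ^ 2) := by
  have h1 := hQ.tail y hy
  have h2 : QL w L y ^ 2 ≤ (D * Real.exp (-(|y| - 2 * δ * L) ^ 2 / 2)) ^ 2 := by
    rw [sq_le_sq, abs_of_nonneg (show 0 ≤ D * Real.exp (-(|y| - 2 * δ * L) ^ 2 / 2) by positivity)]
    exact h1
  refine h2.trans (le_of_eq ?_)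
  rw [mul_pow, ← Real.exp_nat_mul]
  congr 2
  push_cast
  ring

/-- the function `|y| QL(y)²` is controlled by `2 δ L QL(y)²` and two Gaussians -/
lemma absG_le (hQ : QB w δ D L) (hD : 0 ≤ D) (hδL : 0 ≤ δ * L) (y : ℝ) :
    |y| * QL w L y ^ 2 ≤ 2 * δ * L * QL w L y ^ 2 +
      D ^ 2 * (Real.exp (-(y - 2 * δ * L) ^ 2 / 2) + Real.exp (-(y - -(2 * δ * L)) ^ 2 / 2)) := by
  by_cases h : 2 * δ * L ≤ |y|
  · have h1 := G_tail hQ hD y h
    set s := |y| - 2 * δ * L with hs
    have hs0 : 0 ≤ s := by linarith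
    have h2 : s * Real.exp (-s ^ 2) ≤ Real.exp (-s ^ 2 / 2) := by
      have h3 : s ≤ Real.exp (s ^ 2 / 2) := by
        have := Real.add_one_le_exp (s ^ 2 / 2)
        nlinarith [sq_nonneg (s - 1)]
      have h4 : Real.exp (-s ^ 2 / 2) = Real.exp (s ^ 2 / 2) * Real.exp (-s ^ 2) := by
        rw [← Real.exp_add]
        congr 1
        ring
      rw [h4]
      exact mul_le_mul_of_nonneg_right h3 (Real.exp_pos _).le
    have h5 : Real.exp (-s ^ 2 / 2) ≤ Real.exp (-(y - 2 * δ * L) ^ 2 / 2) + Real.exp (-(y - -(2 * δ * L)) ^ 2 / 2) := by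
      rcases abs_choice y with hy | hy
      · have e : Real.exp (-s ^ 2 / 2) = Real.exp (-(y - 2 * δ * L) ^ 2 / 2) := by
          rw [hs, hy]
        rw [e]
        have := Real.exp_pos (-(y - -(2 * δ * L)) ^ 2 / 2)
        linarith
      · have e : Real.exp (-s ^ 2 / 2) = Real.exp (-(y - -(2 * δ * L)) ^ 2 / 2) := by
          rw [hs, hy]
          congr 1
          ring
        rw [e]
        have := Real.exp_pos (-(y - 2 * δ * L) ^ 2 / 2)
        linarith
    have h6 : |y| * QL w L y ^ 2 = 2 * δ * L * QL w L y ^ 2 + s * QL w L y ^ 2 := by rw [hs]; ring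
    rw [h6]
    have h7 : s * QL w L y ^ 2 ≤ D ^ 2 * (s * Real.exp (-s ^ 2)) := by
      calc s * QL w L y ^ 2 ≤ s * (D ^ 2 * Real.exp (-s ^ 2)) := mul_le_mul_of_nonneg_left h1 hs0
        _ = _ := by ring
    have h8 : D ^ 2 * (s * Real.exp (-s ^ 2)) ≤ D ^ 2 *
        (Real.exp (-(y - 2 * δ * L) ^ 2 / 2) + Real.exp (-(y - -(2 * δ * L)) ^ 2 / 2)) :=
      mul_le_mul_of_nonneg_left (h2.trans h5) (by positivity)
    linarith
  · push Not at h
    have h1 : |y| * QL w L y ^ 2 ≤ 2 * δ * L * QL w L y ^ 2 := mul_le_mul_of_nonneg_right h.le (sq_nonneg _)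
    have h2 : 0 ≤ D ^ 2 * (Real.exp (-(y - 2 * δ * L) ^ 2 / 2) + Real.exp (-(y - -(2 * δ * L)) ^ 2 / 2)) := by positivity
    linarith

/-- the main integral -/
lemma main_int (hQ : QB w δ D L) (hD : 0 ≤ D) (hδ : 0 < δ) (hL : 1 ≤ L) (u m : ℝ) (huL : u ≤ L) (hm0 : 0 ≤ m)
    (hm : u + 2 * δ * L ≤ m) :
    |(∫ x in (0 : ℝ)..m, x * QL w L (x - u) ^ 2) - max u 0 * ∫ y : ℝ, QL w L y ^ 2| ≤
      2 * δ * L * (∫ y : ℝ, QL w L y ^ 2) + 9 * L * D ^ 2 := by
  have hL0 : 0 < L := by linarith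
  set G : ℝ → ℝ := fun y => QL w L y ^ 2 with hG
  have hGc : Continuous G := by
    have := hQ.cont
    fun_prop
  have hGi : Integrable G := hQ.int
  have hG0 : ∀ y, 0 ≤ G y := fun y => sq_nonneg _
  -- rewrite the first integral
  have h1 : ∫ x in (0 : ℝ)..m, x * G (x - u) = ∫ y : ℝ, (Set.Ioc 0 m).indicator (fun x => x) (y + u) * G y := by
    rw [intervalIntegral.integral_of_le hm0, ← integral_indicator measurableSet_Ioc,
      ← integral_add_right_eq_self (fun x => (Set.Ioc 0 m).indicator (fun x => x * G (x - u)) x) u]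
    refine integral_congr_ae (Eventually.of_forall fun y => ?_)
    simp only [Set.indicator_apply]
    split_ifs with h
    · rw [add_sub_cancel_right]
    · rw [zero_mul]
  have hi1 : Integrable fun y : ℝ => (Set.Ioc 0 m).indicator (fun x => x) (y + u) * G y := by
    have h2 : Integrable fun x : ℝ => (Set.Ioc 0 m).indicator (fun x => x * G (x - u)) x := by
      rw [integrable_indicator_iff measurableSet_Ioc]
      exact (Continuous.integrableOn_Icc (by fun_prop)).mono_set Set.Ioc_subset_Icc_self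
    have h3 := h2.comp_add_right u
    refine h3.congr (Eventually.of_forall fun y => ?_)
    simp only [Set.indicator_apply]
    split_ifs with h
    · rw [add_sub_cancel_right]
    · rw [zero_mul]
  have hi2 : Integrable fun y : ℝ => max u 0 * G y := hGi.const_mul _
  have hga := gauss_int (2 * δ * L)
  have hgb := gauss_int (-(2 * δ * L))
  have hi3 : Integrable fun y : ℝ => 2 * δ * L * G y +
      D ^ 2 * (Real.exp (-(y - 2 * δ * L) ^ 2 / 2) + Real.exp (-(y - -(2 * δ * L)) ^ 2 / 2)) +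
      L * D ^ 2 * Real.exp (-(y - 2 * δ * L) ^ 2 / 2) :=
    ((hGi.const_mul _).add ((hga.add hgb).const_mul _)).add (hga.const_mul _)
  have hpt : ∀ y : ℝ, |(Set.Ioc 0 m).indicator (fun x => x) (y + u) * G y - max u 0 * G y| ≤
      2 * δ * L * G y + D ^ 2 * (Real.exp (-(y - 2 * δ * L) ^ 2 / 2) + Real.exp (-(y - -(2 * δ * L)) ^ 2 / 2)) +
      L * D ^ 2 * Real.exp (-(y - 2 * δ * L) ^ 2 / 2) := by
    intro y
    have ha := absG_le hQ hD (by positivity) y
    have he : 0 ≤ L * D ^ 2 * Real.exp (-(y - 2 * δ * L) ^ 2 / 2) := by positivity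
    rw [← sub_mul, abs_mul, abs_of_nonneg (hG0 y)]
    by_cases hx : y + u ∈ Set.Ioc 0 m
    · rw [Set.indicator_of_mem hx]
      have h2 : |y + u - max u 0| ≤ |y| := by
        rcases le_total 0 u with hu | hu
        · rw [max_eq_left hu, add_sub_cancel_right]
        · rw [max_eq_right hu, sub_zero, abs_of_pos hx.1]
          have := le_abs_self y
          linarith
      have h3 := mul_le_mul_of_nonneg_right h2 (hG0 y)
      simp only [hG] at h3 ⊢
      linarith
    · rw [Set.indicator_of_notMem hx, zero_sub, abs_neg, abs_of_nonneg (le_max_right u 0)]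
      rw [Set.mem_Ioc, not_and_or, not_lt, not_le] at hx
      rcases hx with hx | hx
      · have h2 : max u 0 ≤ |y| := by
          refine max_le ?_ (abs_nonneg _)
          have := neg_le_abs y
          linarith
        have h3 := mul_le_mul_of_nonneg_right h2 (hG0 y)
        simp only [hG] at h3 ⊢
        linarith
      · have h2 : max u 0 ≤ L := max_le huL hL0.le
        have hy : 2 * δ * L ≤ y := by linarith
        have hy0 : 0 ≤ y := le_trans (by positivity) hy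
        have h4 := G_tail hQ hD y (by rw [abs_of_nonneg hy0]; exact hy)
        rw [abs_of_nonneg hy0] at h4
        have h5 : Real.exp (-(y - 2 * δ * L) ^ 2) ≤ Real.exp (-(y - 2 * δ * L) ^ 2 / 2) := by
          rw [Real.exp_le_exp]
          nlinarith [sq_nonneg (y - 2 * δ * L)]
        have h6 : G y ≤ D ^ 2 * Real.exp (-(y - 2 * δ * L) ^ 2 / 2) :=
          h4.trans (mul_le_mul_of_nonneg_left h5 (by positivity))
        have h7 : max u 0 * G y ≤ L * (D ^ 2 * Real.exp (-(y - 2 * δ * L) ^ 2 / 2)) :=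
          mul_le_mul h2 h6 (hG0 y) hL0.le
        have h8 : 0 ≤ 2 * δ * L * G y + D ^ 2 * (Real.exp (-(y - 2 * δ * L) ^ 2 / 2) +
            Real.exp (-(y - -(2 * δ * L)) ^ 2 / 2)) := by
          have := hG0 y
          positivity
        have h9 : L * (D ^ 2 * Real.exp (-(y - 2 * δ * L) ^ 2 / 2)) = L * D ^ 2 * Real.exp (-(y - 2 * δ * L) ^ 2 / 2) := by ring
        rw [h9] at h7
        linarith
  have h2 : (∫ x in (0 : ℝ)..m, x * G (x - u)) - max u 0 * ∫ y : ℝ, G y =
      ∫ y : ℝ, ((Set.Ioc 0 m).indicator (fun x => x) (y + u) * G y - max u 0 * G y) := by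
    rw [integral_sub hi1 hi2, h1, integral_const_mul]
  change |(∫ x in (0 : ℝ)..m, x * G (x - u)) - max u 0 * ∫ y : ℝ, G y| ≤ _
  rw [h2]
  refine (abs_integral_le_integral_abs).trans ?_
  refine (integral_mono (hi1.sub hi2).abs hi3 hpt).trans ?_
  have h3 : ∫ y : ℝ, (2 * δ * L * G y + D ^ 2 * (Real.exp (-(y - 2 * δ * L) ^ 2 / 2) + Real.exp (-(y - -(2 * δ * L)) ^ 2 / 2)) +
      L * D ^ 2 * Real.exp (-(y - 2 * δ * L) ^ 2 / 2)) = 2 * δ * L * (∫ y : ℝ, G y) +
      D ^ 2 * ((∫ y : ℝ, Real.exp (-(y - 2 * δ * L) ^ 2 / 2)) + ∫ y : ℝ, Real.exp (-(y - -(2 * δ * L)) ^ 2 / 2)) +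
      L * D ^ 2 * ∫ y : ℝ, Real.exp (-(y - 2 * δ * L) ^ 2 / 2) := by
    rw [integral_add, integral_add, integral_const_mul, integral_const_mul, integral_const_mul, integral_add hga hgb]
    · exact hGi.const_mul _
    · exact (hga.add hgb).const_mul _
    · exact (hGi.const_mul _).add ((hga.add hgb).const_mul _)
    · exact hga.const_mul _
  rw [h3]
  have g1 := gauss_le (2 * δ * L)
  have g2 := gauss_le (-(2 * δ * L))
  have g3 : D ^ 2 * ((∫ y : ℝ, Real.exp (-(y - 2 * δ * L) ^ 2 / 2)) + ∫ y : ℝ, Real.exp (-(y - -(2 * δ * L)) ^ 2 / 2)) ≤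
      D ^ 2 * (3 + 3) := mul_le_mul_of_nonneg_left (add_le_add g1 g2) (by positivity)
  have g4 : L * D ^ 2 * (∫ y : ℝ, Real.exp (-(y - 2 * δ * L) ^ 2 / 2)) ≤ L * D ^ 2 * 3 :=
    mul_le_mul_of_nonneg_left g1 (by positivity)
  have g5 : D ^ 2 ≤ L * D ^ 2 := by nlinarith [sq_nonneg D]
  have g6 : ∫ y : ℝ, G y = ∫ y : ℝ, QL w L y ^ 2 := rfl
  rw [g6]
  linarith

/-! ### the cut off function -/

/-- the square, cut off at distance `5 L` -/
def psi (w : ℝ → ℝ) (L y : ℝ) : ℝ := QL w L y ^ 2 * max 0 (min 1 (5 - |y| / L))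

lemma psi_nonneg (y : ℝ) : 0 ≤ psi w L y := mul_nonneg (sq_nonneg _) (le_max_left _ _)

lemma psi_eq (hL : 0 < L) {y : ℝ} (hy : |y| ≤ 4 * L) : psi w L y = QL w L y ^ 2 := by
  unfold psi
  have h1 : 1 ≤ 5 - |y| / L := by
    have : |y| / L ≤ 4 := by rw [div_le_iff₀ hL]; exact hy
    linarith
  rw [min_eq_left h1, max_eq_right zero_le_one, mul_one]

lemma psi_zero (hL : 0 < L) {y : ℝ} (hy : 5 * L ≤ |y|) : psi w L y = 0 := by
  unfold psi
  have h1 : 5 - |y| / L ≤ 0 := by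
    have : 5 ≤ |y| / L := by rw [le_div_iff₀ hL]; exact hy
    linarith
  rw [max_eq_left ((min_le_right _ _).trans h1), mul_zero]

lemma cut_lip (hL : 0 < L) (x y : ℝ) :
    |max 0 (min 1 (5 - |x| / L)) - max 0 (min 1 (5 - |y| / L))| ≤ 1 / L * |x - y| := by
  have h1 : |max 0 (min 1 (5 - |x| / L)) - max 0 (min 1 (5 - |y| / L))| ≤ |min 1 (5 - |x| / L) - min 1 (5 - |y| / L)| := by
    have := abs_max_sub_max_le_abs (min 1 (5 - |x| / L)) (min 1 (5 - |y| / L)) 0
    rwa [max_comm _ (0 : ℝ), max_comm _ (0 : ℝ)] at this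
  have h2 : |min 1 (5 - |x| / L) - min 1 (5 - |y| / L)| ≤ |(5 - |x| / L) - (5 - |y| / L)| := by
    have := abs_min_sub_min_le_max 1 (5 - |x| / L) 1 (5 - |y| / L)
    simpa using this
  refine h1.trans (h2.trans ?_)
  have h3 : (5 - |x| / L) - (5 - |y| / L) = 1 / L * (|y| - |x|) := by ring
  rw [h3, abs_mul, abs_of_pos (show 0 < 1 / L by positivity)]
  refine mul_le_mul_of_nonneg_left ?_ (by positivity)
  rw [abs_sub_comm x y]
  exact abs_abs_sub_abs_le y x

lemma psi_bdd (hQ : QB w δ D L) (hD : 0 ≤ D) (y : ℝ) : psi w L y ≤ D ^ 2 := by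
  unfold psi
  have h1 : QL w L y ^ 2 ≤ D ^ 2 := by
    rw [sq_le_sq, abs_of_nonneg hD]
    exact hQ.bdd y
  have h2 : max 0 (min 1 (5 - |y| / L)) ≤ 1 := max_le zero_le_one (min_le_left _ _)
  calc QL w L y ^ 2 * max 0 (min 1 (5 - |y| / L)) ≤ D ^ 2 * 1 := mul_le_mul h1 h2 (le_max_left _ _) (by positivity)
    _ = D ^ 2 := mul_one _

lemma psi_lip (hQ : QB w δ D L) (hD : 0 ≤ D) (hL : 0 < L) (x y : ℝ) :
    |psi w L x - psi w L y| ≤ 3 * D ^ 2 / L * |x - y| := by
  unfold psi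
  set a := max 0 (min 1 (5 - |x| / L)) with ha
  set b := max 0 (min 1 (5 - |y| / L)) with hb
  have hab := cut_lip hL x y
  rw [← ha, ← hb] at hab
  have ha0 : 0 ≤ a := le_max_left _ _
  have ha1 : a ≤ 1 := max_le zero_le_one (min_le_left _ _)
  have hx := hQ.bdd x
  have hy := hQ.bdd y
  have hl := hQ.lip x y
  have h1 : QL w L x ^ 2 * a - QL w L y ^ 2 * b = (QL w L x - QL w L y) * (QL w L x + QL w L y) * a + QL w L y ^ 2 * (a - b) := by
    ring
  rw [h1]
  refine (abs_add_le _ _).trans ?_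
  rw [abs_mul, abs_mul, abs_mul (QL w L y ^ 2), abs_of_nonneg ha0, abs_of_nonneg (sq_nonneg (QL w L y))]
  have h2 : |QL w L x + QL w L y| ≤ 2 * D := (abs_add_le _ _).trans (by linarith)
  have h3 : |QL w L x - QL w L y| * |QL w L x + QL w L y| ≤ (D / L * |x - y|) * (2 * D) :=
    mul_le_mul hl h2 (abs_nonneg _) (by positivity)
  have h4 : |QL w L x - QL w L y| * |QL w L x + QL w L y| * a ≤ (D / L * |x - y|) * (2 * D) * 1 :=
    mul_le_mul h3 ha1 ha0 (by positivity)
  have h5 : QL w L y ^ 2 ≤ D ^ 2 := by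
    rw [sq_le_sq, abs_of_nonneg hD]
    exact hy
  have h6 : QL w L y ^ 2 * |a - b| ≤ D ^ 2 * (1 / L * |x - y|) := mul_le_mul h5 hab (abs_nonneg _) (by positivity)
  have h7 : (D / L * |x - y|) * (2 * D) * 1 + D ^ 2 * (1 / L * |x - y|) = 3 * D ^ 2 / L * |x - y| := by ring
  linarith

/-- Lipschitz constant of `x ψ(x - u)` -/
lemma xpsi_lip (hQ : QB w δ D L) (hD : 0 ≤ D) (hL : 0 < L) (u : ℝ) (hu : |u| ≤ L) (x y : ℝ) :
    |x * psi w L (x - u) - y * psi w L (y - u)| ≤ 19 * D ^ 2 * |x - y| := by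
  have key : ∀ x y : ℝ, |x| ≤ 6 * L → |x * psi w L (x - u) - y * psi w L (y - u)| ≤ 19 * D ^ 2 * |x - y| := by
    intro x y hx
    have h1 : x * psi w L (x - u) - y * psi w L (y - u) = x * (psi w L (x - u) - psi w L (y - u)) + (x - y) * psi w L (y - u) := by
      ring
    rw [h1]
    refine (abs_add_le _ _).trans ?_
    rw [abs_mul, abs_mul, abs_of_nonneg (psi_nonneg (w := w) (L := L) (y - u))]
    have h2 := psi_lip hQ hD hL (x - u) (y - u)
    rw [sub_sub_sub_cancel_right] at h2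
    have h3 : |x| * |psi w L (x - u) - psi w L (y - u)| ≤ 6 * L * (3 * D ^ 2 / L * |x - y|) :=
      mul_le_mul hx h2 (abs_nonneg _) (by positivity)
    have h4 : |x - y| * psi w L (y - u) ≤ |x - y| * D ^ 2 := mul_le_mul_of_nonneg_left (psi_bdd hQ hD _) (abs_nonneg _)
    have h5 : 6 * L * (3 * D ^ 2 / L * |x - y|) = 18 * D ^ 2 * |x - y| := by
      field_simp
      ring
    linarith
  by_cases hx : |x| ≤ 6 * L
  · exact key x y hx
  by_cases hy : |y| ≤ 6 * L
  · rw [abs_sub_comm, abs_sub_comm x y]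
    exact key y x hy
  · push Not at hx hy
    have h1 : psi w L (x - u) = 0 := by
      refine psi_zero hL ?_
      have := abs_sub_abs_le_abs_sub x u
      linarith
    have h2 : psi w L (y - u) = 0 := by
      refine psi_zero hL ?_
      have := abs_sub_abs_le_abs_sub y u
      linarith
    rw [h1, h2, mul_zero, mul_zero, sub_zero, abs_zero]
    positivity

/-! ### Mertens sums -/

/-- the conclusion of `S_MER` for a constant -/
def MerC (C₃ : ℝ) : Prop := ∀ (g : ℝ → ℝ) (D B₁ x₀ x₁ : ℝ) (M : ℕ), 0 ≤ D → 0 ≤ B₁ → x₀ ≤ x₁ → 1 ≤ M →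
  (∀ x y : ℝ, |g x - g y| ≤ D * |x - y|) → (∀ x, |g x| ≤ B₁) → (∀ x, x < x₀ ∨ x₁ < x → g x = 0) →
  |(∑ p ∈ (Finset.Icc 1 M).filter Nat.Prime, Real.log p / p * g (Real.log p)) - ∫ x in (0 : ℝ)..Real.log M, g x| ≤
    C₃ * (B₁ + D * (x₁ - x₀))

lemma psi_supp (hL : 0 < L) {u : ℝ} (hu : |u| ≤ L) (x : ℝ) (hx : x < -(6 * L) ∨ 6 * L < x) : psi w L (x - u) = 0 := by
  refine psi_zero hL ?_
  have h1 := abs_sub_abs_le_abs_sub x u
  have h2 : 6 * L < |x| := by
    rcases hx with hx | hx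
    · have := neg_le_abs x
      linarith
    · exact hx.trans_le (le_abs_self x)
  linarith

lemma near_of (hL : 0 < L) {u : ℝ} (hu : |u| ≤ L) {x m : ℝ} (hx0 : 0 ≤ x) (hx : x ≤ m) (hm : m ≤ 3 * L) : |x - u| ≤ 4 * L := by
  have h1 := abs_sub x u
  rw [abs_of_nonneg hx0] at h1
  linarith

lemma merA {C₃ : ℝ} (hM : MerC C₃) (hQ : QB w δ D L) (hD : 0 ≤ D) (hL : 0 < L) (u : ℝ) (hu : |u| ≤ L) (M : ℕ) (hM1 : 1 ≤ M)
    (hm : Real.log M ≤ 3 * L) :
    |(∑ p ∈ (Finset.Icc 1 M).filter Nat.Prime, Real.log p ^ 2 * QL w L (Real.log p - u) ^ 2 / (L ^ 2 * p)) -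
      (∫ x in (0 : ℝ)..Real.log M, x * QL w L (x - u) ^ 2) / L ^ 2| ≤ 234 * C₃ * D ^ 2 / L := by
  have h := hM (fun x => x * psi w L (x - u) / L ^ 2) (19 * D ^ 2 / L ^ 2) (6 * D ^ 2 / L) (-(6 * L)) (6 * L) M
    (by positivity) (by positivity) (by linarith) hM1 ?_ ?_ ?_
  · have hlM : 0 ≤ Real.log M := Real.log_nonneg (by exact_mod_cast hM1)
    have e1 : ∑ p ∈ (Finset.Icc 1 M).filter Nat.Prime, Real.log p / p * (Real.log p * psi w L (Real.log p - u) / L ^ 2) =
        ∑ p ∈ (Finset.Icc 1 M).filter Nat.Prime, Real.log p ^ 2 * QL w L (Real.log p - u) ^ 2 / (L ^ 2 * p) := by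
      refine Finset.sum_congr rfl fun p hp => ?_
      rw [Finset.mem_filter, Finset.mem_Icc] at hp
      have hp1 : (1 : ℝ) ≤ p := by exact_mod_cast hp.1.1
      have hp2 : Real.log p ≤ Real.log M := Real.log_le_log (by linarith) (by exact_mod_cast hp.1.2)
      rw [psi_eq hL (near_of hL hu (Real.log_nonneg hp1) hp2 hm)]
      have : (p : ℝ) ≠ 0 := by linarith
      field_simp
    have e2 : ∫ x in (0 : ℝ)..Real.log M, x * psi w L (x - u) / L ^ 2 =
        (∫ x in (0 : ℝ)..Real.log M, x * QL w L (x - u) ^ 2) / L ^ 2 := by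
      rw [intervalIntegral.integral_div]
      congr 1
      refine intervalIntegral.integral_congr fun x hx => ?_
      rw [Set.uIcc_of_le hlM] at hx
      rw [psi_eq hL (near_of hL hu hx.1 hx.2 hm)]
    rw [e1, e2] at h
    refine h.trans (le_of_eq ?_)
    field_simp
    ring
  · intro x y
    have h1 := xpsi_lip hQ hD hL u hu x y
    rw [← sub_div, abs_div, abs_of_pos (show 0 < L ^ 2 by positivity), div_mul_eq_mul_div]
    exact div_le_div_of_nonneg_right h1 (by positivity)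
  · intro x
    rw [abs_div, abs_of_pos (show 0 < L ^ 2 by positivity), abs_mul, abs_of_nonneg (psi_nonneg (w := w) (L := L) (x - u)),
      div_le_iff₀ (by positivity)]
    by_cases hx : |x| ≤ 6 * L
    · have h1 : |x| * psi w L (x - u) ≤ 6 * L * D ^ 2 := mul_le_mul hx (psi_bdd hQ hD _) (psi_nonneg _) (by positivity)
      refine h1.trans (le_of_eq ?_)
      field_simp
    · push Not at hx
      have h2 : x < -(6 * L) ∨ 6 * L < x := by
        rcases lt_abs.1 hx with h3 | h3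
        · exact Or.inr h3
        · exact Or.inl (by linarith)
      rw [psi_supp hL hu x h2, mul_zero]
      positivity
  · intro x hx
    rw [psi_supp hL hu x hx, mul_zero, zero_div]

lemma merB {C₃ : ℝ} (hM : MerC C₃) (hQ : QB w δ D L) (hD : 0 ≤ D) (hL : 0 < L) (u : ℝ) (hu : |u| ≤ L) (M : ℕ) (hM1 : 1 ≤ M)
    (hm : Real.log M ≤ 3 * L) :
    ∑ p ∈ (Finset.Icc 1 M).filter Nat.Prime, Real.log p * QL w L (Real.log p - u) ^ 2 / (L * p) ≤
      I2 w + (D + 39 * C₃ * D ^ 2) / L := by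
  have h := hM (fun x => psi w L (x - u) / L) (3 * D ^ 2 / L ^ 2) (D ^ 2 / L) (-(6 * L)) (6 * L) M
    (by positivity) (by positivity) (by linarith) hM1 ?_ ?_ ?_
  · have hlM : 0 ≤ Real.log M := Real.log_nonneg (by exact_mod_cast hM1)
    have e1 : ∑ p ∈ (Finset.Icc 1 M).filter Nat.Prime, Real.log p / p * (psi w L (Real.log p - u) / L) =
        ∑ p ∈ (Finset.Icc 1 M).filter Nat.Prime, Real.log p * QL w L (Real.log p - u) ^ 2 / (L * p) := by
      refine Finset.sum_congr rfl fun p hp => ?_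
      rw [Finset.mem_filter, Finset.mem_Icc] at hp
      have hp1 : (1 : ℝ) ≤ p := by exact_mod_cast hp.1.1
      have hp2 : Real.log p ≤ Real.log M := Real.log_le_log (by linarith) (by exact_mod_cast hp.1.2)
      rw [psi_eq hL (near_of hL hu (Real.log_nonneg hp1) hp2 hm)]
      have : (p : ℝ) ≠ 0 := by linarith
      field_simp
    have e2 : ∫ x in (0 : ℝ)..Real.log M, psi w L (x - u) / L =
        (∫ x in (0 : ℝ)..Real.log M, QL w L (x - u) ^ 2) / L := by
      rw [intervalIntegral.integral_div]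
      congr 1
      refine intervalIntegral.integral_congr fun x hx => ?_
      rw [Set.uIcc_of_le hlM] at hx
      rw [psi_eq hL (near_of hL hu hx.1 hx.2 hm)]
    have hGi : Integrable fun x => QL w L (x - u) ^ 2 := hQ.int.comp_sub_right u
    have e3 : ∫ x in (0 : ℝ)..Real.log M, QL w L (x - u) ^ 2 ≤ L * I2 w + D := by
      have h1 : ∫ x in (0 : ℝ)..Real.log M, QL w L (x - u) ^ 2 ≤ ∫ x : ℝ, QL w L (x - u) ^ 2 := by
        rw [intervalIntegral.integral_of_le hlM]
        exact setIntegral_le_integral hGi (Eventually.of_forall fun x => sq_nonneg _)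
      have h2 : ∫ x : ℝ, QL w L (x - u) ^ 2 = ∫ x : ℝ, QL w L x ^ 2 :=
        integral_sub_right_eq_self (fun x => QL w L x ^ 2) u
      have h3 := (abs_le.1 hQ.sq).2
      linarith
    have e4 : (∫ x in (0 : ℝ)..Real.log M, QL w L (x - u) ^ 2) / L ≤ I2 w + D / L := by
      rw [div_le_iff₀ hL]
      have : (I2 w + D / L) * L = L * I2 w + D := by field_simp
      linarith
    rw [e1, e2] at h
    have h5 := (abs_le.1 h).2
    have h6 : C₃ * (D ^ 2 / L + 3 * D ^ 2 / L ^ 2 * (6 * L - -(6 * L))) = 37 * C₃ * D ^ 2 / L := by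
      field_simp
      ring
    rw [h6] at h5
    have h7 : (D + 39 * C₃ * D ^ 2) / L = D / L + 37 * C₃ * D ^ 2 / L + 2 * (C₃ * D ^ 2 / L) := by ring
    have h8 : 0 ≤ C₃ * (D ^ 2 / L + 3 * D ^ 2 / L ^ 2 * (6 * L - -(6 * L))) := (abs_nonneg _).trans h
    have h9 : 0 ≤ C₃ * D ^ 2 / L := by
      rw [h6] at h8
      have e : 37 * C₃ * D ^ 2 / L = 37 * (C₃ * D ^ 2 / L) := by ring
      rw [e] at h8
      linarith
    rw [h7]
    linarith
  · intro x y
    have h1 := psi_lip hQ hD hL (x - u) (y - u)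
    rw [sub_sub_sub_cancel_right] at h1
    rw [← sub_div, abs_div, abs_of_pos hL, div_le_iff₀ hL]
    refine h1.trans (le_of_eq ?_)
    field_simp
  · intro x
    rw [abs_div, abs_of_pos hL, abs_of_nonneg (psi_nonneg (w := w) (L := L) (x - u))]
    exact div_le_div_of_nonneg_right (psi_bdd hQ hD _) hL.le
  · intro x hx
    rw [psi_supp hL hu x hx, zero_div]

end

end Pool.Agent.Q150.UM
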