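import Pool.Agent.Q150.UM.PUa

set_option autoImplicit false

/-!
# Project UM2 of helper97, job PU (helper150), part 2: truncation and assembly
-/

namespace Pool.Agent.Q150.UM

open Filter Topology MeasureTheory Complex
open scoped ComplexConjugate
open Pool.Agent.Q97.UM

noncomputable section

variable {w : ℝ → ℝ} {δ D L : ℝ}

/-- the length of the truncated prime sum -/
def MM (δ L u : ℝ) : ℕ := ⌊Real.exp (max u 0 + 2 * δ * L + 3 * Real.sqrt L)⌋₊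

/-- the coefficients of the truncated prime sum -/
def al' (w : ℝ → ℝ) (L u : ℝ) (M n : ℕ) : ℂ :=
  if n ≤ M then ((ArithmeticFunction.vonMangoldt n * (QL w L (Real.log n - u) / L) : ℝ) : ℂ) else 0

lemma Fq_trunc (q : ℕ → ℝ) (M : ℕ) (t : ℝ) :
    Fq (fun n => if n ≤ M then q n else 0) t =
      dp M (fun n => if n ≤ M then ((ArithmeticFunction.vonMangoldt n * q n : ℝ) : ℂ) else 0) t := by
  unfold Fq dp
  rw [tsum_eq_sum (s := Finset.Icc 1 M)]
  · refine Finset.sum_congr rfl fun n hn => ?_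
    rw [Finset.mem_Icc] at hn
    simp only [if_pos hn.2]
    push_cast
    ring
  · intro n hn
    rw [Finset.mem_Icc, not_and_or, not_le, not_le] at hn
    rcases hn with hn | hn
    · have : n = 0 := by omega
      subst this
      simp
    · simp only [if_neg (show ¬ n ≤ M by omega), Complex.ofReal_zero, mul_zero]

lemma tail_le (hQ : QB w δ D L) (hD : 1 ≤ D) (hδ : 0 < δ) (hL : 1 ≤ L) (u : ℝ) (hX : max u 0 + 2 * δ * L ≤ L)
    (hDL : D * Real.exp 1 * c1 ≤ L) (t : ℝ) :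
    ‖PL w L u t - dp (MM δ L u) (al' w L u (MM δ L u)) t‖ ≤ 1 / L := by
  have hL0 : 0 < L := by linarith
  set M := MM δ L u with hM
  set q : ℕ → ℝ := fun n => QL w L (Real.log n - u) / L with hq
  have hqc := QL_coef hQ (by linarith) (by positivity) hL0 u
  have hq1 : ∀ n : ℕ, 1 ≤ n → |if n ≤ M then q n else 0| ≤ (D * Real.exp (u + 2 * δ * L + 1 / 2) / L) / n := by
    intro n hn
    split_ifs
    · exact hqc n hn
    · rw [abs_zero]
      positivity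
  have hq2' : ∀ n : ℕ, 1 ≤ n → |if n ≤ M then 0 else q n| ≤ (D * Real.exp (u + 2 * δ * L + 1 / 2) / L) / n := by
    intro n hn
    split_ifs
    · rw [abs_zero]
      positivity
    · exact hqc n hn
  have hsplit : PL w L u t = Fq (fun n => if n ≤ M then q n else 0) t + Fq (fun n => if n ≤ M then 0 else q n) t := by
    rw [PL_eq]
    unfold Fq
    rw [← (Fq_summable _ _ hq1 t).tsum_add (Fq_summable _ _ hq2' t)]
    refine tsum_congr fun n => ?_
    by_cases h : n ≤ M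
    · simp [h, hq]
    · simp [h, hq]
  have hdp : Fq (fun n => if n ≤ M then q n else 0) t = dp M (al' w L u M) t := Fq_trunc q M t
  rw [hsplit, hdp, add_sub_cancel_left]
  have hb : ∀ n : ℕ, 1 ≤ n → |if n ≤ M then 0 else q n| ≤ (D * Real.exp (1 - 5 * L / 4) / L) / n := by
    intro n hn
    have hn' : (0 : ℝ) < n := by exact_mod_cast hn
    split_ifs with h
    · rw [abs_zero]
      positivity
    · push Not at h
      have h1 : Real.exp (max u 0 + 2 * δ * L + 3 * Real.sqrt L) < n := by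
        have h2 := Nat.lt_floor_add_one (Real.exp (max u 0 + 2 * δ * L + 3 * Real.sqrt L))
        have h3 : ((⌊Real.exp (max u 0 + 2 * δ * L + 3 * Real.sqrt L)⌋₊ : ℕ) : ℝ) + 1 ≤ n := by
          rw [hM] at h
          exact_mod_cast h
        linarith
      have h2 : max u 0 + 2 * δ * L + 3 * Real.sqrt L < Real.log n := (Real.lt_log_iff_exp_lt hn').2 h1
      set X := max u 0 + 2 * δ * L with hX'
      set s := Real.log n - X with hs
      have hsq : 0 ≤ Real.sqrt L := Real.sqrt_nonneg L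
      have hss : Real.sqrt L * Real.sqrt L = L := Real.mul_self_sqrt hL0.le
      have hs3 : 3 * Real.sqrt L ≤ s := by rw [hs]; linarith
      have hu : u ≤ max u 0 := le_max_left _ _
      have hxx : s ≤ Real.log n - u - 2 * δ * L := by rw [hs, hX']; linarith
      have hδL : 0 ≤ δ * L := by positivity
      have hs0 : 0 ≤ s := by linarith
      have habs : |Real.log n - u| = Real.log n - u := abs_of_nonneg (by linarith)
      have h3 := hQ.tail (Real.log n - u) (by rw [habs]; linarith)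
      rw [habs] at h3
      have h4 : -(Real.log n - u - 2 * δ * L) ^ 2 / 2 ≤ 1 - 5 * L / 4 - Real.log n := by
        have h5 : s ^ 2 ≤ (Real.log n - u - 2 * δ * L) ^ 2 := pow_le_pow_left₀ hs0 hxx 2
        have h6 : 9 * L ≤ s ^ 2 := by nlinarith
        have h7 : s - 1 ≤ s ^ 2 / 4 := by nlinarith [sq_nonneg (s - 2)]
        have h8 : Real.log n = s + X := by rw [hs]; ring
        linarith
      have h5 : |QL w L (Real.log n - u)| ≤ D * (Real.exp (1 - 5 * L / 4) / n) := by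
        refine h3.trans (mul_le_mul_of_nonneg_left ((Real.exp_le_exp.2 h4).trans (le_of_eq ?_)) (by linarith))
        rw [Real.exp_sub, Real.exp_log hn']
      rw [hq]
      simp only
      rw [abs_div, abs_of_pos hL0, div_div, div_le_div_iff₀ hL0 (mul_pos hL0 hn')]
      have h6 : D * (Real.exp (1 - 5 * L / 4) / n) * (L * n) = D * Real.exp (1 - 5 * L / 4) * L := by field_simp
      rw [← h6]
      exact mul_le_mul_of_nonneg_right h5 (by positivity)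
  refine (Fq_norm _ _ hb t).trans ?_
  have hc1 := c1_nonneg
  rw [div_mul_eq_mul_div]
  refine div_le_div_of_nonneg_right ?_ hL0.le
  have h1 : Real.exp (1 - 5 * L / 4) = Real.exp 1 * Real.exp (-(5 * L / 4)) := by rw [← Real.exp_add]; rfl
  rw [h1]
  have h2 : L ≤ Real.exp (5 * L / 4) := by
    have := Real.add_one_le_exp (5 * L / 4)
    linarith
  calc D * (Real.exp 1 * Real.exp (-(5 * L / 4))) * c1 = (D * Real.exp 1 * c1) * Real.exp (-(5 * L / 4)) := by ring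
    _ ≤ Real.exp (5 * L / 4) * Real.exp (-(5 * L / 4)) := mul_le_mul_of_nonneg_right (hDL.trans h2) (Real.exp_pos _).le
    _ = 1 := by rw [← Real.exp_add]; simp

/-- the conclusion of `S_CONV` for a constant -/
def ConvC (C₄ : ℝ) : Prop := ∀ (N M : ℕ) (b α : ℕ → ℂ) (β : ℕ → ℝ) (β₁ η : ℝ), 1 ≤ N → 1 ≤ M → 0 < η → η ≤ 1 →
  (∀ n, 0 ≤ β n ∧ β n ≤ β₁) → (∀ n, ‖α n‖ ≤ ArithmeticFunction.vonMangoldt n * β n) → (∀ n, M < n → α n = 0) →
  (∀ n, N < n → b n = 0) →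
  |N2 (N * M) (cv α b) - (∑ p ∈ bigP N M, ‖α p‖ ^ 2 / p) * N2 N b| ≤
    (η * ∑ p ∈ bigP N M, ‖α p‖ ^ 2 / p + C₄ / η * (Real.log (2 * N) * (∑ p ∈ smallP N M, Real.log p * β p ^ 2 / p) +
      Real.log (2 * N * M) * β₁ ^ 2)) * N2 N b

/-- the numerical part -/
lemma numPU {n2 X₀ S1 Ssm A J2 ul I₂ δ θ r C₄ κ κ₁ κ₂ L D lN lNM : ℝ} (hn2 : 0 ≤ n2) (hL : 1 ≤ L) (hr : 0 < r) (hr1 : r ≤ 1)
    (hθ : θ = r ^ 2) (hI : 0 ≤ I₂) (hC₄ : 1 ≤ C₄) (hκ : 0 ≤ κ) (hκ₁ : 0 ≤ κ₁) (hκ₂ : 0 ≤ κ₂) (hδ : 0 ≤ δ) (hδ1 : δ ≤ 1 / 2)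
    (hul : ul ≤ 1) (hA0 : 0 ≤ A) (hA : A ≤ I₂ + κ / L) (hSsm0 : 0 ≤ Ssm) (hSsm : Ssm ≤ θ * A)
    (hS : |S1 + Ssm - J2| ≤ κ₁ / L) (hJ : |J2 - ul * I₂| ≤ 2 * δ * I₂ + κ₂ / L)
    (hX : |X₀ - S1 * n2| ≤ (r * S1 + C₄ / r * (lN * (A / L) + lNM * (D / L) ^ 2)) * n2)
    (hlN : lN ≤ 1 + θ * L) (hlNM0 : 0 ≤ lNM) (hlNM : lNM ≤ 3 * L) :
    |X₀ - ul * I₂ * n2| ≤ ((C₄ + 3) * (δ + r) * I₂ +
      (2 * (κ₁ + κ₂) + κ + C₄ * κ + C₄ / r * (I₂ + κ) + 3 * C₄ / r * D ^ 2) / L) * n2 := by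
  have hL0 : 0 < L := by linarith
  have hθ0 : 0 ≤ θ := by rw [hθ]; positivity
  have hθr : θ ≤ r := by rw [hθ]; nlinarith
  have hκL : κ / L ≤ κ := div_le_self hκ hL
  have hκL0 : 0 ≤ κ / L := by positivity
  have hκ₁L0 : 0 ≤ κ₁ / L := by positivity
  have hκ₂L0 : 0 ≤ κ₂ / L := by positivity
  have hS' := abs_le.1 hS
  have hJ' := abs_le.1 hJ
  have hulI : ul * I₂ ≤ 1 * I₂ := mul_le_mul_of_nonneg_right hul hI
  have hδI : 2 * δ * I₂ ≤ 1 * I₂ := mul_le_mul_of_nonneg_right (by linarith) hI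
  have h1 : S1 ≤ 2 * I₂ + (κ₁ / L + κ₂ / L) := by linarith
  have hSθ : Ssm ≤ r * I₂ + κ / L := by
    have e1 : θ * A ≤ r * (I₂ + κ / L) := mul_le_mul hθr hA hA0 hr.le
    have e2 : r * (κ / L) ≤ 1 * (κ / L) := mul_le_mul_of_nonneg_right hr1 hκL0
    linarith
  have h2 : |S1 - ul * I₂| ≤ 2 * δ * I₂ + r * I₂ + (κ₁ / L + κ₂ / L + κ / L) := by
    rw [abs_le]
    constructor
    · linarith
    · have : 0 ≤ r * I₂ := by positivity
      linarith
  have h3 : r * S1 ≤ 2 * r * I₂ + (κ₁ / L + κ₂ / L) := by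
    have e1 := mul_le_mul_of_nonneg_left h1 hr.le
    have e2 : r * (κ₁ / L + κ₂ / L) ≤ 1 * (κ₁ / L + κ₂ / L) := mul_le_mul_of_nonneg_right hr1 (by positivity)
    linarith
  have h4 : lN * (A / L) ≤ (r ^ 2 + 1 / L) * (I₂ + κ / L) := by
    have e1 : lN * (A / L) ≤ (1 + θ * L) * (A / L) := mul_le_mul_of_nonneg_right hlN (by positivity)
    have e2 : (1 + θ * L) * (A / L) = (r ^ 2 + 1 / L) * A := by
      rw [hθ]
      field_simp
      ring
    have e3 : (r ^ 2 + 1 / L) * A ≤ (r ^ 2 + 1 / L) * (I₂ + κ / L) := mul_le_mul_of_nonneg_left hA (by positivity)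
    linarith
  have h5 : lNM * (D / L) ^ 2 ≤ 3 * D ^ 2 / L := by
    have e1 : lNM * (D / L) ^ 2 ≤ 3 * L * (D / L) ^ 2 := mul_le_mul_of_nonneg_right hlNM (by positivity)
    have e2 : 3 * L * (D / L) ^ 2 = 3 * D ^ 2 / L := by field_simp
    linarith
  have h6 : C₄ / r * (lN * (A / L) + lNM * (D / L) ^ 2) ≤ C₄ * r * I₂ +
      (C₄ * κ + C₄ / r * (I₂ + κ) + 3 * C₄ / r * D ^ 2) / L := by
    have e1 : C₄ / r * (lN * (A / L) + lNM * (D / L) ^ 2) ≤ C₄ / r * ((r ^ 2 + 1 / L) * (I₂ + κ / L) + 3 * D ^ 2 / L) :=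
      mul_le_mul_of_nonneg_left (add_le_add h4 h5) (by positivity)
    have e2 : C₄ / r * ((r ^ 2 + 1 / L) * (I₂ + κ / L) + 3 * D ^ 2 / L) =
        C₄ * r * I₂ + C₄ * r * κ / L + C₄ / r * (I₂ + κ / L) / L + 3 * C₄ / r * D ^ 2 / L := by
      field_simp
    have e3 : C₄ * r * κ / L ≤ C₄ * κ / L := by
      refine div_le_div_of_nonneg_right ?_ hL0.le
      have : C₄ * κ * r ≤ C₄ * κ * 1 := mul_le_mul_of_nonneg_left hr1 (by positivity)
      linarith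
    have e4 : C₄ / r * (I₂ + κ / L) / L ≤ C₄ / r * (I₂ + κ) / L := by
      refine div_le_div_of_nonneg_right ?_ hL0.le
      exact mul_le_mul_of_nonneg_left (by linarith) (by positivity)
    have e5 : C₄ * r * I₂ + (C₄ * κ + C₄ / r * (I₂ + κ) + 3 * C₄ / r * D ^ 2) / L =
        C₄ * r * I₂ + C₄ * κ / L + C₄ / r * (I₂ + κ) / L + 3 * C₄ / r * D ^ 2 / L := by ring
    linarith
  have h7 : X₀ - ul * I₂ * n2 = (X₀ - S1 * n2) + (S1 - ul * I₂) * n2 := by ring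
  rw [h7]
  refine (abs_add_le _ _).trans ?_
  rw [abs_mul, abs_of_nonneg hn2]
  have h8 : |S1 - ul * I₂| * n2 ≤ (2 * δ * I₂ + r * I₂ + (κ₁ / L + κ₂ / L + κ / L)) * n2 := mul_le_mul_of_nonneg_right h2 hn2
  have h9 : (r * S1 + C₄ / r * (lN * (A / L) + lNM * (D / L) ^ 2)) * n2 ≤
      ((2 * r * I₂ + (κ₁ / L + κ₂ / L)) + (C₄ * r * I₂ + (C₄ * κ + C₄ / r * (I₂ + κ) + 3 * C₄ / r * D ^ 2) / L)) * n2 :=
    mul_le_mul_of_nonneg_right (add_le_add h3 h6) hn2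
  have h10 : (2 * δ * I₂ + r * I₂ + (κ₁ / L + κ₂ / L + κ / L)) + ((2 * r * I₂ + (κ₁ / L + κ₂ / L)) + (C₄ * r * I₂ +
      (C₄ * κ + C₄ / r * (I₂ + κ) + 3 * C₄ / r * D ^ 2) / L)) ≤ (C₄ + 3) * (δ + r) * I₂ +
      (2 * (κ₁ + κ₂) + κ + C₄ * κ + C₄ / r * (I₂ + κ) + 3 * C₄ / r * D ^ 2) / L := by
    have e1 : (C₄ + 3) * (δ + r) * I₂ + (2 * (κ₁ + κ₂) + κ + C₄ * κ + C₄ / r * (I₂ + κ) + 3 * C₄ / r * D ^ 2) / L =
        (2 * δ * I₂ + r * I₂ + (κ₁ / L + κ₂ / L + κ / L)) + ((2 * r * I₂ + (κ₁ / L + κ₂ / L)) + (C₄ * r * I₂ +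
      (C₄ * κ + C₄ / r * (I₂ + κ) + 3 * C₄ / r * D ^ 2) / L)) + (C₄ + 1) * (δ * I₂) := by ring
    rw [e1]
    have : 0 ≤ (C₄ + 1) * (δ * I₂) := by positivity
    linarith
  have h11 := mul_le_mul_of_nonneg_right h10 hn2
  rw [add_mul] at h11
  linarith

end

end Pool.Agent.Q150.UM
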