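import Pool.Agent.Q97.UM.Stm15
import Pool.Agent.Q14.UM.EK
import Pool.Agent.Q178.UM.PR
import Pool.Agent.Q86.UM.MBl

set_option autoImplicit false

/-!
Project UM8 of helper97, jobs TSB and TSC: the twisted second moment against a mean value.
-/

namespace Pool.Agent.Q150.UM

open Filter Topology MeasureTheory Complex
open Pool.Agent.Q97.UM

noncomputable section

/-! ### the Euler product -/

theorem wne (β : ℝ) : (1 / 2 + β * I : ℂ) ≠ 0 := by
  intro h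
  have := congrArg Complex.re h
  simp at this

theorem nw (β : ℝ) {p : ℕ} (hp : 0 < p) : ‖(p : ℂ) ^ (-(1 / 2 + β * I))‖ = (p : ℝ) ^ (-(1 / 2) : ℝ) := by
  rw [Complex.norm_natCast_cpow_of_pos hp]
  congr 1
  simp

theorem half_lt : (2 : ℝ) ^ (-(1 / 2) : ℝ) ≤ 3 / 4 := by
  rw [Real.rpow_neg (by norm_num), ← Real.sqrt_eq_rpow]
  have h1 : (4 / 3 : ℝ) ≤ √2 := by
    apply Real.le_sqrt_of_sq_le
    norm_num
  have h2 : (0 : ℝ) < √2 := by positivity
  rw [inv_le_comm₀ h2 (by norm_num)]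
  linarith

theorem nw_le (β : ℝ) {p : ℕ} (hp : 2 ≤ p) : ‖(p : ℂ) ^ (-(1 / 2 + β * I))‖ ≤ 3 / 4 := by
  rw [nw β (by omega)]
  refine le_trans ?_ half_lt
  exact Real.rpow_le_rpow_of_nonpos (by norm_num) (by exact_mod_cast hp) (by norm_num)

theorem one_factor (z : ℂ) (hz : ‖z‖ ≤ 3 / 4) :
    ‖(1 - z)⁻¹‖ ≤ ‖cexp (z + z ^ 2 / 2)‖ * Real.exp (2 * ‖z‖ ^ 3) := by
  have hz1 : ‖-z‖ < 1 := by
    rw [norm_neg]
    linarith
  have h1 := Complex.norm_log_sub_logTaylor_le 2 hz1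
  have h2 : Complex.logTaylor 3 (-z) = -z - z ^ 2 / 2 := by
    rw [Complex.logTaylor_succ, Complex.logTaylor_succ, Complex.logTaylor_succ, Complex.logTaylor_zero]
    simp
    ring
  have hne : (1 - z) ≠ 0 := by
    intro h
    have h3 : z = 1 := by linear_combination -h
    rw [h3] at hz
    norm_num at hz
  rw [h2] at h1
  have h4 : ‖-z‖ ^ (2 + 1) * (1 - ‖-z‖)⁻¹ / ((2 : ℕ) + 1) ≤ 2 * ‖z‖ ^ 3 := by
    rw [norm_neg]
    have h5 : (1 - ‖z‖)⁻¹ ≤ 4 := by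
      rw [inv_le_comm₀ (by linarith) (by norm_num)]
      linarith
    have h6 : 0 ≤ ‖z‖ ^ 3 := by positivity
    push_cast
    have h7 : ‖z‖ ^ (2 + 1) * (1 - ‖z‖)⁻¹ ≤ ‖z‖ ^ 3 * 4 := mul_le_mul_of_nonneg_left h5 h6
    linarith
  have h8 : (1 - z)⁻¹ = cexp (-Complex.log (1 + -z)) := by
    rw [Complex.exp_neg, ← sub_eq_add_neg, Complex.exp_log hne]
  rw [h8, Complex.norm_exp, Complex.norm_exp, ← Real.exp_add]
  apply Real.exp_le_exp.2
  have h9 := (Complex.abs_re_le_norm _).trans (h1.trans h4)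
  rw [abs_le] at h9
  have h10 := h9.1
  simp only [Complex.sub_re, Complex.neg_re, Complex.add_re] at h10 ⊢
  linarith

theorem sum_32 : Summable (fun n : ℕ => (n : ℝ) ^ (-(3 / 2) : ℝ)) :=
  Real.summable_nat_rpow.2 (by norm_num)

/-- the finite Euler product against the exponential of the sum over primes -/
theorem ep_bound : ∃ K : ℝ, 1 ≤ K ∧ ∀ (X : ℕ) (β : ℝ),
    ‖∏ p ∈ X.primesBelow, (1 - (p : ℂ) ^ (-(1 / 2 + β * I)))⁻¹‖ ≤
      K * ‖cexp (∑ p ∈ X.primesBelow, ((p : ℂ) ^ (-(1 / 2 + β * I)) + (p : ℂ) ^ (-(1 + 2 * β * I)) / 2))‖ := by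
  refine ⟨Real.exp (2 * ∑' n : ℕ, (n : ℝ) ^ (-(3 / 2) : ℝ)), Real.one_le_exp (by
    refine mul_nonneg (by norm_num) (tsum_nonneg fun n => by positivity)), fun X β => ?_⟩
  rw [norm_prod, Complex.exp_sum, norm_prod]
  have h1 : ∀ p ∈ X.primesBelow, ‖(1 - (p : ℂ) ^ (-(1 / 2 + β * I)))⁻¹‖ ≤
      ‖cexp ((p : ℂ) ^ (-(1 / 2 + β * I)) + (p : ℂ) ^ (-(1 + 2 * β * I)) / 2)‖ *
        Real.exp (2 * (p : ℝ) ^ (-(3 / 2) : ℝ)) := by
    intro p hp
    have hpp := Nat.prime_of_mem_primesBelow hp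
    have h2 := one_factor _ (nw_le β hpp.two_le)
    have h3 : ((p : ℂ) ^ (-(1 / 2 + β * I))) ^ 2 = (p : ℂ) ^ (-(1 + 2 * β * I)) := by
      rw [← Complex.cpow_nat_mul]
      congr 1
      push_cast
      ring
    have h4 : ‖(p : ℂ) ^ (-(1 / 2 + β * I))‖ ^ 3 = (p : ℝ) ^ (-(3 / 2) : ℝ) := by
      rw [nw β hpp.pos, ← Real.rpow_natCast, ← Real.rpow_mul (Nat.cast_nonneg p)]
      norm_num
    rw [h3, h4] at h2
    exact h2
  refine (Finset.prod_le_prod (fun p _ => norm_nonneg _) h1).trans ?_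
  rw [Finset.prod_mul_distrib, ← Real.exp_sum, mul_comm]
  refine mul_le_mul_of_nonneg_right ?_ (Finset.prod_nonneg fun p _ => norm_nonneg _)
  apply Real.exp_le_exp.2
  rw [← Finset.mul_sum]
  exact mul_le_mul_of_nonneg_left (sum_32.sum_le_tsum _ fun n _ => by positivity) (by norm_num)

/-- the Euler product is the sum over the smooth numbers -/
theorem ep_sum (X : ℕ) (β : ℝ) :
    HasSum (fun m : X.smoothNumbers => ((m : ℕ) : ℂ) ^ (-(1 / 2 + β * I)))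
      (∏ p ∈ X.primesBelow, (1 - (p : ℂ) ^ (-(1 / 2 + β * I)))⁻¹) :=
  (EulerProduct.summable_and_hasSum_smoothNumbers_prod_primesBelow_geometric
    (f := (riemannZetaSummandHom (wne β) : ℕ →* ℂ)) (fun {p} hp =>
      (nw_le β hp.two_le).trans_lt (by norm_num)) X).2

theorem ep_summable (X : ℕ) : Summable (fun m : X.smoothNumbers => ((m : ℕ) : ℝ) ^ (-(1 / 2) : ℝ)) := by
  have h := (EulerProduct.summable_and_hasSum_smoothNumbers_prod_primesBelow_geometric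
    (f := (riemannZetaSummandHom (wne 0) : ℕ →* ℂ)) (fun {p} hp =>
      (nw_le 0 hp.two_le).trans_lt (by norm_num)) X).1
  refine h.congr fun m => ?_
  exact nw 0 (Nat.pos_of_ne_zero (Nat.ne_zero_of_mem_smoothNumbers m.2))

open Classical in
/-- partial sums approximate the Euler product uniformly -/
theorem approx (X : ℕ) (ε : ℝ) (hε : 0 < ε) : ∃ Y₀ : ℕ, ∀ Y : ℕ, Y₀ ≤ Y → ∀ β : ℝ,
    ‖(∑ m ∈ Finset.Icc 1 Y, if m ∈ X.smoothNumbers then (m : ℂ) ^ (-(1 / 2 + β * I)) else 0) -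
      ∏ p ∈ X.primesBelow, (1 - (p : ℂ) ^ (-(1 / 2 + β * I)))⁻¹‖ ≤ ε := by
  obtain ⟨s, hs⟩ := summable_iff_vanishing_norm.1 (ep_summable X) ε hε
  refine ⟨s.sup (fun m => (m : ℕ)), fun Y hY β => ?_⟩
  set f : X.smoothNumbers → ℂ := fun m => ((m : ℕ) : ℂ) ^ (-(1 / 2 + β * I)) with hf
  set FY : Finset X.smoothNumbers := (Finset.Icc 1 Y).subtype (· ∈ X.smoothNumbers) with hFY
  have h1 : (∑ m ∈ Finset.Icc 1 Y, if m ∈ X.smoothNumbers then (m : ℂ) ^ (-(1 / 2 + β * I)) else 0) =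
      ∑ m ∈ FY, f m := by
    rw [hFY, ← Finset.sum_filter]
    exact (Finset.sum_subtype_eq_sum_filter (s := Finset.Icc 1 Y) (p := (· ∈ X.smoothNumbers))
      (fun m : ℕ => (m : ℂ) ^ (-(1 / 2 + β * I)))).symm
  have hsF : s ⊆ FY := by
    intro m hm
    rw [hFY, Finset.mem_subtype, Finset.mem_Icc]
    exact ⟨Nat.pos_of_ne_zero (Nat.ne_zero_of_mem_smoothNumbers m.2),
      (Finset.le_sup (f := fun m : X.smoothNumbers => (m : ℕ)) hm).trans hY⟩
  have h2 : Tendsto (fun t : Finset X.smoothNumbers => ‖(∑ m ∈ FY, f m) - ∑ m ∈ t, f m‖) atTop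
      (𝓝 ‖(∑ m ∈ FY, f m) - ∏ p ∈ X.primesBelow, (1 - (p : ℂ) ^ (-(1 / 2 + β * I)))⁻¹‖) :=
    (tendsto_const_nhds.sub (ep_sum X β)).norm
  rw [h1]
  refine le_of_tendsto h2 ?_
  filter_upwards [eventually_ge_atTop FY] with t ht
  have h3 : (∑ m ∈ FY, f m) - ∑ m ∈ t, f m = -∑ m ∈ t \ FY, f m := by
    rw [← Finset.sum_sdiff ht]
    ring
  rw [h3, norm_neg]
  have h4 := hs (t \ FY) (Finset.disjoint_of_subset_right hsF Finset.sdiff_disjoint)
  refine (norm_sum_le _ _).trans ?_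
  have h5 : ∀ m ∈ t \ FY, ‖f m‖ = ((m : ℕ) : ℝ) ^ (-(1 / 2) : ℝ) := fun m _ =>
    nw β (Nat.pos_of_ne_zero (Nat.ne_zero_of_mem_smoothNumbers m.2))
  rw [Finset.sum_congr rfl h5]
  exact (le_abs_self _).trans h4.le

theorem ua_mul (α t : ℝ) {m : ℕ} (hm : m ≠ 0) :
    ua α m * (m : ℂ) ^ (-(1 / 2 + t * I)) = (m : ℂ) ^ (-(1 / 2 + ((t + α : ℝ) : ℂ) * I)) := by
  unfold ua
  rw [← Complex.cpow_add _ _ (by exact_mod_cast hm)]
  congr 1
  push_cast
  ring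

theorem ua_norm (α : ℝ) {m : ℕ} (hm : m ≠ 0) : ‖ua α m‖ = 1 := by
  unfold ua
  rw [Complex.norm_natCast_cpow_of_pos (Nat.pos_of_ne_zero hm)]
  simp

theorem PA_eq (P : ℕ) (α t : ℝ) : PA P (ua α) (ua (2 * α)) t =
    ∑ p ∈ (P + 1).primesBelow, ((p : ℂ) ^ (-(1 / 2 + ((t + α : ℝ) : ℂ) * I)) +
      (p : ℂ) ^ (-(1 + 2 * ((t + α : ℝ) : ℂ) * I)) / 2) := by
  unfold PA
  have h1 : (Finset.Icc 1 P).filter Nat.Prime = (P + 1).primesBelow := by
    ext p
    rw [Finset.mem_filter, Finset.mem_Icc, Nat.primesBelow, Finset.mem_filter, Finset.mem_range]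
    constructor
    · rintro ⟨⟨_, h⟩, h'⟩
      exact ⟨by omega, h'⟩
    · rintro ⟨h, h'⟩
      exact ⟨⟨h'.pos, by omega⟩, h'⟩
  rw [h1]
  refine Finset.sum_congr rfl fun p hp => ?_
  have hp0 := (Nat.prime_of_mem_primesBelow hp).ne_zero
  rw [ua_mul α t hp0]
  congr 1
  unfold ua
  rw [div_mul_eq_mul_div, ← Complex.cpow_add _ _ (by exact_mod_cast hp0)]
  congr 2
  push_cast
  ring

open Classical in
/-- the truncated coefficients -/
def uY (X Y : ℕ) (α : ℝ) (m : ℕ) : ℂ := if m ∈ X.smoothNumbers ∧ m ≤ Y then ua α m else 0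

open Classical in
theorem dp_uY (X Y : ℕ) (α t : ℝ) : dp Y (uY X Y α) t =
    ∑ m ∈ Finset.Icc 1 Y, if m ∈ X.smoothNumbers then
      (m : ℂ) ^ (-(1 / 2 + ((t + α : ℝ) : ℂ) * I)) else 0 := by
  unfold dp
  refine Finset.sum_congr rfl fun m hm => ?_
  rw [Finset.mem_Icc] at hm
  unfold uY
  by_cases h : m ∈ X.smoothNumbers
  · rw [if_pos ⟨h, hm.2⟩, if_pos h, ua_mul α t (by omega)]
  · rw [if_neg (fun h' => h h'.1), if_neg h, zero_mul]

theorem cv_uY (X Y : ℕ) (α : ℝ) (c : ℕ → ℂ) {n : ℕ} (hn : n ∈ X.smoothNumbers) (hnY : n ≤ Y) :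
    cv (uY X Y α) c n = cv (ua α) c n := by
  unfold cv
  refine Finset.sum_congr rfl fun b hb => ?_
  rw [Nat.mem_divisorsAntidiagonal] at hb
  have h1 : b.1 ∣ n := ⟨b.2, hb.1.symm⟩
  have h2 : b.1 ∈ X.smoothNumbers := Nat.mem_smoothNumbers_of_dvd hn h1
  unfold uY
  rw [if_pos ⟨h2, (Nat.le_of_dvd (Nat.pos_of_ne_zero hb.2) h1).trans hnY⟩]

/-- the sums over smooth numbers against the mean value -/
theorem core_fin (hd : S_DPM) (hm : S_MVL) : ∃ K : ℝ, 0 ≤ K ∧ ∀ (P : ℕ) (α : ℝ) (M : ℕ) (c : ℕ → ℂ),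
    (∀ n, c n ≠ 0 → 1 ≤ n ∧ n ≤ M) → ∀ S : ℝ,
    MB (fun t => ‖cexp (PA P (ua α) (ua (2 * α)) t)‖ ^ 2 * ‖dp M c t‖ ^ 2) S →
    ∀ F : Finset ℕ, (∀ n ∈ F, n ∈ (P + 1).smoothNumbers) →
      ∑ n ∈ F, ‖cv (ua α) c n‖ ^ 2 / n ≤ K * S := by
  obtain ⟨K, hK1, hK⟩ := ep_bound
  refine ⟨4 * K ^ 2, by positivity, fun P α M c hc S hS F hF => ?_⟩
  have hN2 : 0 ≤ N2 M c := Pool.Agent.Q86.UM.N2_nonneg M c
  rcases Nat.eq_zero_or_pos M with hM0 | hM0
  · -- trivial case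
    have hc0 : ∀ n, c n = 0 := by
      intro n
      by_contra h
      have := hc n h
      omega
    have h1 : ∀ n, cv (ua α) c n = 0 := by
      intro n
      unfold cv
      exact Finset.sum_eq_zero fun b _ => by rw [hc0, mul_zero]
    have h2 : 0 ≤ S := by
      have h3 : ∀ t, dp M c t = 0 := by
        intro t
        unfold dp
        exact Finset.sum_eq_zero fun b _ => by rw [hc0, zero_mul]
      unfold MB at hS
      simp only [h3] at hS
      obtain ⟨V, hV, hV1⟩ := (hS.and (eventually_ge_atTop 1)).exists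
      simp at hV
      by_contra hcon
      push Not at hcon
      nlinarith
    simp only [h1]
    simp
    positivity
  -- with an error
  have key : ∀ ε : ℝ, 0 < ε → ∑ n ∈ F, ‖cv (ua α) c n‖ ^ 2 / n ≤
      4 * K ^ 2 * S + 8 * ε ^ 2 * N2 M c := by
    intro ε hε
    obtain ⟨Y₀, hY₀⟩ := approx (P + 1) ε hε
    set Y : ℕ := max (max Y₀ (F.sup id)) 1 with hY
    have hYY : Y₀ ≤ Y := (le_max_left _ _).trans (le_max_left _ _)
    have hY1 : 1 ≤ Y := le_max_right _ _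
    have hFY : ∀ n ∈ F, n ≤ Y := fun n hn =>
      ((Finset.le_sup (f := id) hn).trans (le_max_right _ _)).trans (le_max_left _ _)
    set uc := cv (uY (P + 1) Y α) c with huc
    have h1 : ∑ n ∈ F, ‖cv (ua α) c n‖ ^ 2 / n ≤ N2 (Y * M) uc := by
      unfold N2
      have h2 : ∀ n ∈ F, ‖cv (ua α) c n‖ ^ 2 / (n : ℝ) = ‖uc n‖ ^ 2 / n := fun n hn => by
        rw [huc, cv_uY (P + 1) Y α c (hF n hn) (hFY n hn)]
      rw [Finset.sum_congr rfl h2]
      refine Finset.sum_le_sum_of_subset_of_nonneg (fun n hn => ?_) fun n _ _ => by positivity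
      rw [Finset.mem_Icc]
      refine ⟨Nat.pos_of_ne_zero (Nat.ne_zero_of_mem_smoothNumbers (hF n hn)), ?_⟩
      exact (hFY n hn).trans (Nat.le_mul_of_pos_right _ hM0)
    have hprod : ∀ t, dp (Y * M) uc t = dp Y (uY (P + 1) Y α) t * dp M c t := by
      intro t
      rw [huc]
      refine (hd.1 Y M _ c t (fun n hn => ?_) (fun n hn => ?_)).symm
      · unfold uY
        rw [if_neg (fun h => by omega)]
      · by_contra h
        have := hc n h
        omega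
    -- pointwise
    have hpt : ∀ t, ‖dp (Y * M) uc t‖ ^ 2 ≤
        2 * K ^ 2 * (‖cexp (PA P (ua α) (ua (2 * α)) t)‖ ^ 2 * ‖dp M c t‖ ^ 2) +
          2 * ε ^ 2 * ‖dp M c t‖ ^ 2 := by
      intro t
      rw [hprod, norm_mul, mul_pow]
      have h2 := hY₀ Y hYY (t + α)
      have h3 := hK (P + 1) (t + α)
      rw [← dp_uY] at h2
      rw [← PA_eq] at h3
      have h4 : ‖dp Y (uY (P + 1) Y α) t‖ ≤ K * ‖cexp (PA P (ua α) (ua (2 * α)) t)‖ + ε := by
        have h5 := norm_sub_norm_le (dp Y (uY (P + 1) Y α) t)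
          (∏ p ∈ (P + 1).primesBelow, (1 - (p : ℂ) ^ (-(1 / 2 + ((t + α : ℝ) : ℂ) * I)))⁻¹)
        linarith
      have h6 : ‖dp Y (uY (P + 1) Y α) t‖ ^ 2 ≤
          2 * (K * ‖cexp (PA P (ua α) (ua (2 * α)) t)‖) ^ 2 + 2 * ε ^ 2 := by
        have h7 : ‖dp Y (uY (P + 1) Y α) t‖ ^ 2 ≤
            (K * ‖cexp (PA P (ua α) (ua (2 * α)) t)‖ + ε) ^ 2 :=
          pow_le_pow_left₀ (norm_nonneg _) h4 2
        nlinarith [sq_nonneg (K * ‖cexp (PA P (ua α) (ua (2 * α)) t)‖ - ε)]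
      have h8 : 0 ≤ ‖dp M c t‖ ^ 2 := by positivity
      calc ‖dp Y (uY (P + 1) Y α) t‖ ^ 2 * ‖dp M c t‖ ^ 2 ≤
            (2 * (K * ‖cexp (PA P (ua α) (ua (2 * α)) t)‖) ^ 2 + 2 * ε ^ 2) * ‖dp M c t‖ ^ 2 :=
            mul_le_mul_of_nonneg_right h6 h8
        _ = _ := by ring
    -- at a large point
    have hdc : ∀ (N : ℕ) (b : ℕ → ℂ), Continuous (dp N b) := fun N b => (hd.2.2 N b 0).2
    have hPAc : Continuous (PA P (ua α) (ua (2 * α))) := by
      unfold PA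
      refine continuous_finsetSum _ fun p hp => ?_
      have hp0 : (p : ℂ) ≠ 0 := by exact_mod_cast (Finset.mem_filter.1 hp).2.ne_zero
      refine Continuous.add (continuous_const.mul ?_) (continuous_const.mul ?_)
      · exact Continuous.const_cpow (by fun_prop) (Or.inl hp0)
      · exact Continuous.const_cpow (by fun_prop) (Or.inl hp0)
    have hev : ∀ᶠ V : ℝ in atTop, ((Y * M : ℕ) : ℝ) ≤ V ^ (1 / 4 : ℝ) ∧ (M : ℝ) ≤ V ^ (1 / 4 : ℝ) :=
      ((tendsto_rpow_atTop (by norm_num : (0 : ℝ) < 1 / 4)).eventually_ge_atTop _).and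
        ((tendsto_rpow_atTop (by norm_num : (0 : ℝ) < 1 / 4)).eventually_ge_atTop _)
    unfold MB at hS
    obtain ⟨V, hV1, ⟨hV2, hV3⟩, hV16⟩ := (hS.and (hev.and (eventually_ge_atTop 16))).exists
    have m1 := (hm V hV16 (Y * M) hV2 uc).1
    have m2 := (hm V hV16 M hV3 c).2
    have hVV : V ≤ 2 * V := by linarith
    have c1 : Continuous fun t => ‖dp (Y * M) uc t‖ ^ 2 := ((hdc _ _).norm.pow 2)
    have c2 : Continuous fun t => ‖cexp (PA P (ua α) (ua (2 * α)) t)‖ ^ 2 * ‖dp M c t‖ ^ 2 :=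
      ((Complex.continuous_exp.comp hPAc).norm.pow 2).mul ((hdc _ _).norm.pow 2)
    have c3 : Continuous fun t => ‖dp M c t‖ ^ 2 := ((hdc _ _).norm.pow 2)
    have m3 : ∫ t in V..(2 * V), ‖dp (Y * M) uc t‖ ^ 2 ≤ ∫ t in V..(2 * V),
        (2 * K ^ 2 * (‖cexp (PA P (ua α) (ua (2 * α)) t)‖ ^ 2 * ‖dp M c t‖ ^ 2) +
          2 * ε ^ 2 * ‖dp M c t‖ ^ 2) :=
      intervalIntegral.integral_mono_on hVV (c1.intervalIntegrable _ _)
        (((c2.const_mul _).add (c3.const_mul _)).intervalIntegrable _ _) fun t _ => hpt t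
    rw [intervalIntegral.integral_add ((c2.const_mul _).intervalIntegrable _ _)
      ((c3.const_mul _).intervalIntegrable _ _), intervalIntegral.integral_const_mul,
      intervalIntegral.integral_const_mul] at m3
    have m4 : 2 * K ^ 2 * ∫ t in V..(2 * V), ‖cexp (PA P (ua α) (ua (2 * α)) t)‖ ^ 2 * ‖dp M c t‖ ^ 2
        ≤ 2 * K ^ 2 * (S * V) := mul_le_mul_of_nonneg_left hV1 (by positivity)
    have m5 : 2 * ε ^ 2 * ∫ t in V..(2 * V), ‖dp M c t‖ ^ 2 ≤ 2 * ε ^ 2 * (2 * V * N2 M c) :=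
      mul_le_mul_of_nonneg_left m2 (by positivity)
    have hV0 : 0 < V := by linarith
    have m6 : V / 2 * N2 (Y * M) uc ≤ V / 2 * (4 * K ^ 2 * S + 8 * ε ^ 2 * N2 M c) := by
      linarith
    exact h1.trans (le_of_mul_le_mul_left m6 (by positivity))
  -- let the error tend to zero
  have hlim : Tendsto (fun ε : ℝ => 4 * K ^ 2 * S + 8 * ε ^ 2 * N2 M c) (𝓝[>] 0)
      (𝓝 (4 * K ^ 2 * S + 8 * (0 : ℝ) ^ 2 * N2 M c)) := by
    refine Tendsto.mono_left ?_ nhdsWithin_le_nhds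
    exact Continuous.tendsto (by fun_prop) 0
  have := ge_of_tendsto hlim (by
    filter_upwards [self_mem_nhdsWithin] with ε hε
    exact key ε hε)
  simpa using this

/-- the divisor sum of the twisted coefficients -/
theorem div_sum (α : ℝ) (c : ℕ → ℂ) {n : ℕ} (hn : n ≠ 0) :
    ‖∑ h ∈ n.divisors, c h * (h : ℂ) ^ (α * I)‖ = ‖cv (ua α) c n‖ := by
  have h1 : ∑ h ∈ n.divisors, c h * (h : ℂ) ^ (α * I) = (n : ℂ) ^ (α * I) * cv (ua α) c n := by
    unfold cv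
    rw [Nat.sum_divisorsAntidiagonal' (fun a b => ua α a * c b), Finset.mul_sum]
    refine Finset.sum_congr rfl fun h hh => ?_
    have hd := Nat.dvd_of_mem_divisors hh
    have hh0 : h ≠ 0 := by
      rintro rfl
      exact hn (Nat.eq_zero_of_zero_dvd hd)
    have hq0 : n / h ≠ 0 := by
      intro h0
      have := Nat.div_mul_cancel hd
      rw [h0, zero_mul] at this
      exact hn this.symm
    have h2 : (n : ℂ) ^ (α * I) = (h : ℂ) ^ (α * I) * ((n / h : ℕ) : ℂ) ^ (α * I) := by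
      rw [← Complex.natCast_mul_natCast_cpow]
      congr 1
      rw [← Nat.cast_mul, Nat.mul_div_cancel' hd]
    have h3 : ((n / h : ℕ) : ℂ) ^ (α * I) * ua α (n / h) = 1 := by
      unfold ua
      rw [← Complex.cpow_add _ _ (by exact_mod_cast hq0), add_neg_cancel, Complex.cpow_zero]
    rw [h2]
    linear_combination (-(c h) * (h : ℂ) ^ (α * I)) * h3
  rw [h1, norm_mul]
  have h4 : ‖(n : ℂ) ^ (α * I)‖ = 1 := by
    rw [Complex.norm_natCast_cpow_of_pos (Nat.pos_of_ne_zero hn)]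
    simp
  rw [h4, one_mul]

/-- the main lemma -/
theorem core (hE : S_EXP) (hd : S_DPM) (hm : S_MVL) : ∃ C : ℝ, 0 ≤ C ∧
    ∀ (P : ℕ) (α : ℝ) (M : ℕ) (c : ℕ → ℂ), 1 ≤ P →
    (∀ n, c n ≠ 0 → 1 ≤ n ∧ n ≤ M ∧ n ∈ (P + 1).smoothNumbers) → ∀ S : ℝ,
    MB (fun t => ‖cexp (PA P (ua α) (ua (2 * α)) t)‖ ^ 2 * ‖dp M c t‖ ^ 2) S →
    0 ≤ (QF M (fun n => c n * (n : ℂ) ^ (α * I))).re ∧ 0 ≤ C * S ∧
    Real.log ((P + 1 : ℕ) : ℝ) * (QF M (fun n => c n * (n : ℂ) ^ (α * I))).re ≤ C * S := by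
  obtain ⟨K, hK0, hK⟩ := core_fin hd hm
  obtain ⟨D, hD1, hD⟩ := Pool.Agent.Q178.UM.PR.mert_prod
  refine ⟨D * K, by positivity, fun P α M c hP hc S hS => ?_⟩
  have hfin := hK P α M c (fun n hn => ⟨(hc n hn).1, (hc n hn).2.1⟩) S hS
  have hKS : 0 ≤ K * S := by simpa using hfin ∅ (by simp)
  have hE1 := (hE (P + 1) M (fun n => c n * (n : ℂ) ^ (α * I)) (fun n hn => hc n (fun h => hn (by
    simp [h])))).1
  have hPr0 : 0 ≤ ∏ p ∈ (P + 1).primesBelow, (1 - 1 / (p : ℝ)) := by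
    refine Finset.prod_nonneg fun p hp => ?_
    have hp1 : (1 : ℝ) ≤ p := by exact_mod_cast (Nat.prime_of_mem_primesBelow hp).one_le
    rw [sub_nonneg, div_le_one (by linarith)]
    exact hp1
  have hlog : 0 < Real.log ((P + 1 : ℕ) : ℝ) := Real.log_pos (by
    push_cast
    have : (1 : ℝ) ≤ P := by exact_mod_cast hP
    linarith)
  have hQ0 : 0 ≤ (QF M (fun n => c n * (n : ℂ) ^ (α * I))).re :=
    hE1.nonneg fun n => mul_nonneg hPr0 (by positivity)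
  have hQ1 : (QF M (fun n => c n * (n : ℂ) ^ (α * I))).re ≤
      (∏ p ∈ (P + 1).primesBelow, (1 - 1 / (p : ℝ))) * (K * S) := by
    refine hasSum_le_of_sum_le hE1 fun s => ?_
    rw [← Finset.mul_sum]
    refine mul_le_mul_of_nonneg_left ?_ hPr0
    have h1 := hfin (s.map (Function.Embedding.subtype _)) (by
      intro n hn
      rw [Finset.mem_map] at hn
      obtain ⟨m, _, rfl⟩ := hn
      exact m.2)
    rw [Finset.sum_map] at h1
    refine le_trans (le_of_eq (Finset.sum_congr rfl fun n _ => ?_)) h1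
    have hn0 := Nat.ne_zero_of_mem_smoothNumbers n.2
    rw [div_sum α c hn0]
    rfl
  refine ⟨hQ0, by rw [mul_assoc]; positivity, ?_⟩
  have h2 := hD (P + 1) (by omega)
  calc Real.log ((P + 1 : ℕ) : ℝ) * (QF M (fun n => c n * (n : ℂ) ^ (α * I))).re
      ≤ Real.log ((P + 1 : ℕ) : ℝ) * ((∏ p ∈ (P + 1).primesBelow, (1 - 1 / (p : ℝ))) * (K * S)) :=
        mul_le_mul_of_nonneg_left hQ1 hlog.le
    _ ≤ Real.log ((P + 1 : ℕ) : ℝ) * ((D / Real.log ((P + 1 : ℕ) : ℝ)) * (K * S)) :=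
        mul_le_mul_of_nonneg_left (mul_le_mul_of_nonneg_right h2 hKS) hlog.le
    _ = D * K * S := by
        field_simp

theorem zt_cont : Continuous zt := by
  unfold zt
  rw [continuous_iff_continuousAt]
  intro t
  have h1 : (1 / 2 + (t : ℂ) * I) ≠ 1 := by
    intro h
    have := congrArg Complex.re h
    simp at this
  exact ContinuousAt.comp (f := fun t : ℝ => (1 / 2 + (t : ℂ) * I))
    (differentiableAt_riemannZeta h1).continuousAt (by fun_prop)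

/-- the twisted moment on `[T/2, 3T]` -/
theorem moment (hTS : S_TS) (hE : S_EXP) (hd : S_DPM) (hm : S_MVL) :
    ∃ θ₀ : ℝ, 0 < θ₀ ∧ θ₀ ≤ 1 / 8 ∧ ∀ δ : ℝ, 0 < δ → δ ≤ 1 → ∃ C : ℝ, 0 ≤ C ∧
    ∀ᶠ T : ℝ in atTop, ∀ (α : ℝ) (M : ℕ) (c : ℕ → ℂ), (M : ℝ) ≤ T ^ θ₀ →
      (∀ n, c n ≠ 0 → 1 ≤ n ∧ n ≤ M ∧ n ∈ Nat.smoothNumbers (⌊T ^ δ⌋₊ + 1)) → ∀ S : ℝ,
      MB (fun t => ‖cexp (∑ l ∈ Finset.range (JB (δ * Real.log T)),
        zf (δ * Real.log T) (ua α) (ua (2 * α)) l t)‖ ^ 2 * ‖dp M c t‖ ^ 2) S →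
      ∫ t in (T / 2)..(3 * T), ‖zt t‖ ^ 2 * ‖dp M (fun n => c n * (n : ℂ) ^ (α * I)) t‖ ^ 2 ≤
        C * T * (S + T ^ (-θ₀) * N2 M c) := by
  obtain ⟨θ, C, hθ0, hθ1, hC1, hTS'⟩ := hTS
  obtain ⟨K, hK0, hK⟩ := core hE hd hm
  refine ⟨θ / 2, by positivity, by linarith, fun δ hδ0 hδ1 => ⟨C * (K / δ + 1), by positivity, ?_⟩⟩
  have hev1 : ∀ᶠ T : ℝ in atTop, 1 ≤ δ * Real.log T :=
    (Real.tendsto_log_atTop.const_mul_atTop hδ0).eventually_ge_atTop 1
  filter_upwards [hTS', hev1, eventually_ge_atTop 1] with T hT hT1 hT2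
  intro α M c hM hc S hS
  have hT0 : 0 < T := by linarith
  have hTδ : Real.exp (δ * Real.log T) = T ^ δ := by
    rw [Real.rpow_def_of_pos hT0, mul_comm]
  have hz : ∀ t, ∑ l ∈ Finset.range (JB (δ * Real.log T)),
      zf (δ * Real.log T) (ua α) (ua (2 * α)) l t = PA ⌊T ^ δ⌋₊ (ua α) (ua (2 * α)) t := by
    intro t
    rw [← hTδ]
    exact Pool.Agent.Q14.UM.sum_zj (δ * Real.log T) (ua α) (ua (2 * α)) hT1 t
  simp only [hz] at hS
  have hP1 : 1 ≤ ⌊T ^ δ⌋₊ := by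
    rw [Nat.one_le_floor_iff]
    exact Real.one_le_rpow hT2 hδ0.le
  obtain ⟨q1, q2, q3⟩ := hK ⌊T ^ δ⌋₊ α M c hP1 hc S hS
  set ct : ℕ → ℂ := fun n => c n * (n : ℂ) ^ (α * I) with hct
  have hN2 : 0 ≤ N2 M c := Pool.Agent.Q86.UM.N2_nonneg M c
  -- the bound of the coefficients
  have hlam : ∀ n, ‖ct n‖ ≤ √(M * N2 M c) := by
    intro n
    by_cases hcn : c n = 0
    · rw [hct]
      simp only [hcn, zero_mul, norm_zero]
      positivity
    · obtain ⟨h1, h2, -⟩ := hc n hcn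
      have h3 : ‖ct n‖ = ‖c n‖ := by
        rw [hct]
        simp only
        rw [norm_mul, Complex.norm_natCast_cpow_of_pos h1]
        simp
      rw [h3]
      apply Real.le_sqrt_of_sq_le
      have hn1 : (0 : ℝ) < n := by exact_mod_cast h1
      have h4 : ‖c n‖ ^ 2 / n ≤ N2 M c := by
        unfold N2
        exact Finset.single_le_sum (f := fun n : ℕ => ‖c n‖ ^ 2 / (n : ℝ)) (fun m _ => by positivity)
          (Finset.mem_Icc.2 ⟨h1, h2⟩)
      rw [div_le_iff₀ hn1] at h4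
      have h5 : (n : ℝ) ≤ M := by exact_mod_cast h2
      nlinarith
  have hMθ : (M : ℝ) ≤ T ^ θ := hM.trans (Real.rpow_le_rpow_of_exponent_le hT2 (by linarith))
  have h6 := hT M hMθ ct _ hlam
  rw [Real.sq_sqrt (by positivity)] at h6
  have h7 : ∫ t in (T / 2)..(3 * T), ‖zt t‖ ^ 2 * ‖dp M ct t‖ ^ 2 ≤
      C * T * (Real.log T * (QF M ct).re + T ^ (-θ) * (M * N2 M c)) := h6
  refine h7.trans ?_
  have h8 : Real.log T * (QF M ct).re ≤ K / δ * S := by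
    have h9 : δ * Real.log T ≤ Real.log ((⌊T ^ δ⌋₊ + 1 : ℕ) : ℝ) := by
      rw [← Real.log_rpow hT0]
      refine Real.log_le_log (by positivity) ?_
      push_cast
      exact (Nat.lt_floor_add_one _).le
    have h10 : δ * Real.log T * (QF M ct).re ≤ K * S :=
      (mul_le_mul_of_nonneg_right h9 q1).trans q3
    rw [div_mul_eq_mul_div, le_div_iff₀ hδ0]
    linarith
  have h11 : T ^ (-θ) * (M * N2 M c) ≤ T ^ (-(θ / 2)) * N2 M c := by
    have h12 : T ^ (-θ) * M ≤ T ^ (-(θ / 2)) := by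
      calc T ^ (-θ) * M ≤ T ^ (-θ) * T ^ (θ / 2) :=
            mul_le_mul_of_nonneg_left hM (Real.rpow_nonneg hT0.le _)
        _ = T ^ (-(θ / 2)) := by
            rw [← Real.rpow_add hT0]
            congr 1
            ring
    calc T ^ (-θ) * (M * N2 M c) = T ^ (-θ) * M * N2 M c := by ring
      _ ≤ _ := mul_le_mul_of_nonneg_right h12 hN2
  have h13 : 0 ≤ S := by
    by_contra hcon
    push Not at hcon
    -- `S` is a mean value of a nonnegative function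
    unfold MB at hS
    obtain ⟨V, hV, hV1⟩ := (hS.and (eventually_ge_atTop 1)).exists
    have h14 : 0 ≤ ∫ t in V..(2 * V), ‖cexp (PA ⌊T ^ δ⌋₊ (ua α) (ua (2 * α)) t)‖ ^ 2 * ‖dp M c t‖ ^ 2 :=
      intervalIntegral.integral_nonneg (by linarith) fun t _ => by positivity
    nlinarith
  have h15 : 0 ≤ T ^ (-(θ / 2)) * N2 M c := by positivity
  have h16 : Real.log T * (QF M ct).re + T ^ (-θ) * (M * N2 M c) ≤
      (K / δ + 1) * (S + T ^ (-(θ / 2)) * N2 M c) := by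
    have h17 : 0 ≤ K / δ := by positivity
    nlinarith [mul_nonneg h17 h15]
  calc C * T * (Real.log T * (QF M ct).re + T ^ (-θ) * (M * N2 M c)) ≤
        C * T * ((K / δ + 1) * (S + T ^ (-(θ / 2)) * N2 M c)) :=
        mul_le_mul_of_nonneg_left h16 (by positivity)
    _ = _ := by ring

theorem t_TSB : J_TSB := by
  intro hTS hE hd hm
  obtain ⟨θ₀, h0, h1, h⟩ := moment hTS hE hd hm
  refine ⟨θ₀, h0, h1, fun δ hδ0 hδ1 => ?_⟩
  obtain ⟨C, hC, hev⟩ := h δ hδ0 hδ1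
  refine ⟨C, hC, ?_⟩
  filter_upwards [hev, eventually_ge_atTop 1] with T hT hT1
  intro α hα M c hM hc S hS
  refine le_trans ?_ (hT α M c hM hc S hS)
  have hdc : ∀ (N : ℕ) (b : ℕ → ℂ), Continuous (dp N b) := fun N b => (hd.2.2 N b 0).2
  have h2 : ∫ t in T..(2 * T), ‖zt (t + α)‖ ^ 2 * ‖dp M c t‖ ^ 2 =
      ∫ s in (T + α)..(2 * T + α), ‖zt s‖ ^ 2 * ‖dp M (fun n => c n * (n : ℂ) ^ (α * I)) s‖ ^ 2 := by
    rw [← intervalIntegral.integral_comp_add_right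
      (fun s => ‖zt s‖ ^ 2 * ‖dp M (fun n => c n * (n : ℂ) ^ (α * I)) s‖ ^ 2) α]
    refine intervalIntegral.integral_congr fun t _ => ?_
    rw [← (hd.2.1 M c (t + α) α).1, add_sub_cancel_right]
  rw [h2]
  rw [abs_le] at hα
  refine intervalIntegral.integral_mono_interval (by linarith) (by linarith) (by linarith)
    (Eventually.of_forall fun t => by positivity) ?_
  exact (((zt_cont.norm.pow 2).mul ((hdc _ _).norm.pow 2))).intervalIntegrable _ _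

theorem t_TSC : J_TSC := by
  intro hTS hE hd hm
  obtain ⟨θ₀, h0, h1, h⟩ := moment hTS hE hd hm
  refine ⟨θ₀, h0, h1, fun δ hδ0 hδ1 => ?_⟩
  obtain ⟨C, hC, hev⟩ := h δ hδ0 hδ1
  refine ⟨C, hC, ?_⟩
  filter_upwards [hev] with T hT
  intro M c hM hc S hS
  have h2 : ua 0 = fun _ => 1 := by
    funext n
    unfold ua
    simp
  have h3 := hT 0 M c hM hc S (by
    rw [mul_zero, h2]
    exact hS)
  have h4 : (fun n : ℕ => c n * (n : ℂ) ^ (((0 : ℝ) : ℂ) * I)) = c := by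
    funext n
    simp
  rw [h4] at h3
  exact h3

end

end Pool.Agent.Q150.UM
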