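import Pool.Agent.Q150.UM.LIN

set_option autoImplicit false

/-!
# Project UM2 of helper97, job ZU (helper150)
-/

namespace Pool.Agent.Q150.UM

open Filter Topology MeasureTheory Complex
open scoped ComplexConjugate
open Pool.Agent.Q97.UM

noncomputable section

lemma sq_pert (p r : ℂ) (lam : ℝ) (hlam : 0 < lam) :
    |‖p - r‖ ^ 2 - ‖p‖ ^ 2| ≤ lam * ‖p‖ ^ 2 + (1 / lam + 1) * ‖r‖ ^ 2 := by
  have h1 : |‖p - r‖ - ‖p‖| ≤ ‖r‖ := by
    have := abs_norm_sub_norm_le (p - r) p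
    rwa [sub_sub_cancel_left, norm_neg] at this
  have h2 : ‖p - r‖ + ‖p‖ ≤ 2 * ‖p‖ + ‖r‖ := by
    have := norm_sub_le p r
    linarith
  have h3 : ‖p - r‖ ^ 2 - ‖p‖ ^ 2 = (‖p - r‖ - ‖p‖) * (‖p - r‖ + ‖p‖) := by ring
  rw [h3, abs_mul, abs_of_nonneg (show 0 ≤ ‖p - r‖ + ‖p‖ by positivity)]
  have h4 : |‖p - r‖ - ‖p‖| * (‖p - r‖ + ‖p‖) ≤ ‖r‖ * (2 * ‖p‖ + ‖r‖) :=
    mul_le_mul h1 h2 (by positivity) (norm_nonneg _)
  refine h4.trans ?_
  have h5 : 0 ≤ (lam * ‖p‖ - ‖r‖) ^ 2 / lam := by positivity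
  have h6 : (lam * ‖p‖ - ‖r‖) ^ 2 / lam = lam * ‖p‖ ^ 2 - 2 * ‖p‖ * ‖r‖ + 1 / lam * ‖r‖ ^ 2 := by
    field_simp
    ring
  nlinarith

lemma int_cmp {A B : ℝ} (hAB : A ≤ B) {f g h V : ℝ → ℝ} (hf : Continuous f) (hg : Continuous g) (hh : Continuous h)
    (hVc : Continuous V) (hV : ∀ t, 0 ≤ V t) (hfg : ∀ t ∈ Set.Icc A B, |f t - g t| ≤ h t) :
    |(∫ t in A..B, f t * V t) - ∫ t in A..B, g t * V t| ≤ ∫ t in A..B, h t * V t := by
  rw [← intervalIntegral.integral_sub (Continuous.intervalIntegrable (by fun_prop) _ _)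
    (Continuous.intervalIntegrable (by fun_prop) _ _)]
  refine (intervalIntegral.abs_integral_le_integral_abs hAB).trans ?_
  refine intervalIntegral.integral_mono_on hAB (Continuous.intervalIntegrable (by fun_prop) _ _)
    (Continuous.intervalIntegrable (by fun_prop) _ _) fun t ht => ?_
  rw [← sub_mul, abs_mul, abs_of_nonneg (hV t)]
  exact mul_le_mul_of_nonneg_right (hfg t ht) (hV t)

lemma exp_small (δ K L : ℝ) (hδ : 0 < δ) (hK : 0 ≤ K) (hL : 1 ≤ L) (h1 : 2 / δ ^ 2 ≤ L) (h2 : 2 * K ≤ L) :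
    K * Real.exp (-(δ * L) ^ 2 / 2) ≤ 1 / L := by
  have hL0 : 0 < L := by linarith
  have h3 : Real.exp (-(δ * L) ^ 2 / 2) ≤ Real.exp (-L) := by
    rw [Real.exp_le_exp]
    rw [div_le_iff₀ (by positivity)] at h1
    nlinarith
  have h4 : L ^ 2 / 2 ≤ Real.exp L := by
    have := Real.quadratic_le_exp_of_nonneg hL0.le
    linarith
  have h5 : Real.exp (-L) ≤ 2 / L ^ 2 := by
    rw [Real.exp_neg, inv_eq_one_div, div_le_div_iff₀ (Real.exp_pos _) (by positivity)]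
    linarith
  calc K * Real.exp (-(δ * L) ^ 2 / 2) ≤ K * (2 / L ^ 2) := mul_le_mul_of_nonneg_left (h3.trans h5) hK
    _ = (2 * K) / L * (1 / L) := by field_simp
    _ ≤ 1 * (1 / L) := mul_le_mul_of_nonneg_right ((div_le_one hL0).2 h2) (by positivity)
    _ = 1 / L := one_mul _

lemma norm_rot (u t : ℝ) (Z : ℂ) : ‖cexp (-(I * u * t)) * Z‖ = ‖Z‖ := by
  rw [norm_mul, Complex.norm_exp]
  simp

/-- comparison in the first case -/
lemma zu1 {A B : ℝ} (hAB : A ≤ B) {V : ℝ → ℝ} (hVc : Continuous V) (hV0 : ∀ t, 0 ≤ V t) {Z P : ℝ → ℂ} (hZ : Continuous Z)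
    (hP : Continuous P) (r : ℝ → ℂ) (ρ : ℝ) (hρ0 : 0 < ρ) (hρ1 : ρ ≤ 1) (hr : ∀ t ∈ Set.Icc A B, ‖r t‖ ≤ ρ)
    (hZr : ∀ t ∈ Set.Icc A B, ‖Z t‖ = ‖P t - r t‖) :
    |(∫ t in A..B, ‖Z t‖ ^ 2 * V t) - ∫ t in A..B, ‖P t‖ ^ 2 * V t| ≤
      ρ * (∫ t in A..B, ‖P t‖ ^ 2 * V t) + 2 * ρ * ∫ t in A..B, V t := by
  have hpt : ∀ t ∈ Set.Icc A B, |‖Z t‖ ^ 2 - ‖P t‖ ^ 2| ≤ ρ * ‖P t‖ ^ 2 + 2 * ρ := by
    intro t ht
    rw [hZr t ht]
    refine (sq_pert _ _ ρ hρ0).trans ?_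
    have h2 := hr t ht
    have h3 : ‖r t‖ ^ 2 ≤ ρ ^ 2 := pow_le_pow_left₀ (norm_nonneg _) h2 2
    have h4 := mul_le_mul_of_nonneg_left h3 (show 0 ≤ 1 / ρ + 1 by positivity)
    have h5 : (1 / ρ + 1) * ρ ^ 2 = ρ + ρ * ρ := by field_simp
    have h6 : ρ * ρ ≤ ρ := by nlinarith
    rw [h5] at h4
    linarith
  have hint := int_cmp hAB (f := fun t => ‖Z t‖ ^ 2) (g := fun t => ‖P t‖ ^ 2)
    (h := fun t => ρ * ‖P t‖ ^ 2 + 2 * ρ) (by fun_prop) (by fun_prop) (by fun_prop) hVc hV0 hpt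
  have h6 : ∫ t in A..B, (ρ * ‖P t‖ ^ 2 + 2 * ρ) * V t =
      ρ * (∫ t in A..B, ‖P t‖ ^ 2 * V t) + 2 * ρ * ∫ t in A..B, V t := by
    have e1 : ∀ t, (ρ * ‖P t‖ ^ 2 + 2 * ρ) * V t = ρ * (‖P t‖ ^ 2 * V t) + 2 * ρ * V t := fun t => by ring
    simp only [e1]
    rw [intervalIntegral.integral_add, intervalIntegral.integral_const_mul, intervalIntegral.integral_const_mul]
    · exact Continuous.intervalIntegrable (by fun_prop) _ _
    · exact Continuous.intervalIntegrable (by fun_prop) _ _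
  rwa [h6] at hint

/-- comparison in the second case -/
lemma zu2 {A B : ℝ} (hAB : A ≤ B) {V : ℝ → ℝ} (hVc : Continuous V) (hV0 : ∀ t, 0 ≤ V t) {Z P P' : ℝ → ℂ} (hZ : Continuous Z)
    (hP : Continuous P) (hP' : Continuous P') (e : ℝ → ℂ) (q c η : ℝ) (hη : 0 < η) (hη1 : η ≤ 1)
    (he : ∀ t ∈ Set.Icc A B, ‖e t‖ ≤ c)
    (hZr : ∀ t ∈ Set.Icc A B, ‖Z t‖ = ‖(q : ℂ) - (P t + conj (P' t) - e t)‖) :
    |(∫ t in A..B, ‖Z t‖ ^ 2 * V t) - q ^ 2 * ∫ t in A..B, V t| ≤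
      (6 / η) * ((∫ t in A..B, ‖P t‖ ^ 2 * V t) + ∫ t in A..B, ‖P' t‖ ^ 2 * V t) +
        (η * q ^ 2 + (6 / η) * c ^ 2) * ∫ t in A..B, V t := by
  have hpt : ∀ t ∈ Set.Icc A B, |‖Z t‖ ^ 2 - q ^ 2| ≤ η * q ^ 2 + (6 / η) * (‖P t‖ ^ 2 + ‖P' t‖ ^ 2 + c ^ 2) := by
    intro t ht
    have h2 : ‖(q : ℂ)‖ ^ 2 = q ^ 2 := by rw [Complex.norm_real, Real.norm_eq_abs, sq_abs]
    have h3 := sq_pert (q : ℂ) (P t + conj (P' t) - e t) η hη
    rw [← hZr t ht, h2] at h3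
    refine h3.trans (add_le_add_right ?_ _)
    have h4 : ‖P t + conj (P' t) - e t‖ ≤ ‖P t‖ + ‖P' t‖ + c := by
      refine (norm_sub_le _ _).trans (add_le_add ((norm_add_le _ _).trans (le_of_eq ?_)) (he t ht))
      rw [RCLike.norm_conj]
    have h5 : ‖P t + conj (P' t) - e t‖ ^ 2 ≤ 3 * (‖P t‖ ^ 2 + ‖P' t‖ ^ 2 + c ^ 2) := by
      refine (pow_le_pow_left₀ (norm_nonneg _) h4 2).trans ?_
      nlinarith [sq_nonneg (‖P t‖ - ‖P' t‖), sq_nonneg (‖P t‖ - c), sq_nonneg (‖P' t‖ - c)]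
    have h6 : 1 / η + 1 ≤ 2 / η := by
      have : 1 ≤ 1 / η := by rw [le_div_iff₀ hη]; linarith
      have h7 : 2 / η = 1 / η + 1 / η := by ring
      linarith
    calc (1 / η + 1) * ‖P t + conj (P' t) - e t‖ ^ 2 ≤
        (2 / η) * (3 * (‖P t‖ ^ 2 + ‖P' t‖ ^ 2 + c ^ 2)) :=
          mul_le_mul h6 h5 (by positivity) (by positivity)
      _ = _ := by ring
  have hint := int_cmp hAB (f := fun t => ‖Z t‖ ^ 2) (g := fun _ => q ^ 2)
    (h := fun t => η * q ^ 2 + (6 / η) * (‖P t‖ ^ 2 + ‖P' t‖ ^ 2 + c ^ 2))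
    (by fun_prop) (by fun_prop) (by fun_prop) hVc hV0 hpt
  have h6 : ∫ t in A..B, (η * q ^ 2 + (6 / η) * (‖P t‖ ^ 2 + ‖P' t‖ ^ 2 + c ^ 2)) * V t =
      (6 / η) * ((∫ t in A..B, ‖P t‖ ^ 2 * V t) + ∫ t in A..B, ‖P' t‖ ^ 2 * V t) +
        (η * q ^ 2 + (6 / η) * c ^ 2) * ∫ t in A..B, V t := by
    have e1 : ∀ t, (η * q ^ 2 + (6 / η) * (‖P t‖ ^ 2 + ‖P' t‖ ^ 2 + c ^ 2)) * V t =
        (6 / η) * (‖P t‖ ^ 2 * V t + ‖P' t‖ ^ 2 * V t) + (η * q ^ 2 + (6 / η) * c ^ 2) * V t :=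
      fun t => by ring
    simp only [e1]
    rw [intervalIntegral.integral_add, intervalIntegral.integral_const_mul, intervalIntegral.integral_const_mul,
      intervalIntegral.integral_add]
    · exact Continuous.intervalIntegrable (by fun_prop) _ _
    · exact Continuous.intervalIntegrable (by fun_prop) _ _
    · exact Continuous.intervalIntegrable (by fun_prop) _ _
    · exact Continuous.intervalIntegrable (by fun_prop) _ _
  rwa [h6, intervalIntegral.integral_const_mul] at hint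

/-- the numerical end of the first case -/
lemma num1 {IZ IP IV W q ρ s I₂ ul K₁ C₂ ε ε' : ℝ} (hW : 0 ≤ W) (hρ0 : 0 < ρ)
    (h1 : |IZ - IP| ≤ ρ * IP + 2 * ρ * IV) (hIP : IP ≤ K₁ * W) (hIV : IV ≤ 2 * W) (hq : q ^ 2 ≤ ρ)
    (h2 : |IP - ul * I₂ * W| ≤ (C₂ * s + ε' + ε / 4) * W) (hε : 0 < ε) (hε' : ε' ≤ ε / 4) (hs : 0 ≤ s) (hC₂ : 1 ≤ C₂)
    (hρ : ρ * (K₁ + 5) ≤ ε / 4) :
    |IZ - (q ^ 2 + ul * I₂) * W| ≤ (33 * C₂ * s + ε) * W := by
  have e1 : IZ - (q ^ 2 + ul * I₂) * W = (IZ - IP) + (IP - ul * I₂ * W) - q ^ 2 * W := by ring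
  rw [e1]
  refine (abs_sub _ _).trans ?_
  have h3 := abs_add_le (IZ - IP) (IP - ul * I₂ * W)
  rw [abs_of_nonneg (show 0 ≤ q ^ 2 * W by positivity)]
  have h4 := mul_le_mul_of_nonneg_right hq hW
  have h5 := mul_le_mul_of_nonneg_left hIP hρ0.le
  have h6 := mul_le_mul_of_nonneg_left hIV (show 0 ≤ 2 * ρ by positivity)
  have h7 := mul_le_mul_of_nonneg_right hρ hW
  have h8 := mul_le_mul_of_nonneg_right hε' hW
  have h9 : 0 ≤ 32 * C₂ * s * W := by positivity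
  have h10 : ρ * (K₁ * W) + 2 * ρ * (2 * W) + ρ * W = ρ * (K₁ + 5) * W := by ring
  have h11 : (C₂ * s + ε' + ε / 4) * W = C₂ * s * W + ε' * W + ε / 4 * W := by ring
  have h12 : (33 * C₂ * s + ε) * W = 32 * C₂ * s * W + C₂ * s * W + ε / 4 * W + ε / 4 * W + ε / 4 * W + ε / 4 * W := by ring
  have h13 : 0 ≤ ε / 4 * W := by positivity
  linarith

/-- the numerical end of the second case -/
lemma num2 {IZ IP IP' IV W q s I₂ ul C₂ ε η c D : ℝ} (hW : 0 ≤ W) (hη : 0 < η) (hη1 : η ≤ 1)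
    (h1 : |IZ - q ^ 2 * IV| ≤ (6 / η) * (IP + IP') + (η * q ^ 2 + (6 / η) * c ^ 2) * IV)
    (hIV0 : 0 ≤ IV) (hIV : IV ≤ 2 * W) (hIV2 : |IV - W| ≤ ε / (8 * D ^ 2) * W) (hq : q ^ 2 ≤ D ^ 2) (hD : 1 ≤ D)
    (hIP : IP ≤ (ul * I₂ + C₂ * s + η * ε / 48) * W) (hIP' : IP' ≤ (C₂ * s + η * ε / 48) * W)
    (hε : 0 < ε) (hs : 0 ≤ s) (hC₂ : 1 ≤ C₂) (hul0 : 0 ≤ ul * I₂) (hul : ul * I₂ ≤ 3 * s) (hc : c ^ 2 ≤ η * ε / 48) :
    |IZ - (q ^ 2 + ul * I₂) * W| ≤ (η * q ^ 2 + 33 * C₂ / η * s + ε) * W := by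
  have hq0 : 0 ≤ q ^ 2 := sq_nonneg q
  have p1 : q ^ 2 * |IV - W| ≤ ε / 8 * W := by
    calc q ^ 2 * |IV - W| ≤ D ^ 2 * (ε / (8 * D ^ 2) * W) := mul_le_mul hq hIV2 (abs_nonneg _) (by positivity)
      _ = ε / 8 * W := by field_simp
  have p2 : η * q ^ 2 * IV ≤ η * q ^ 2 * W + ε / 8 * W := by
    have h8 : q ^ 2 * (IV - W) ≤ q ^ 2 * |IV - W| := mul_le_mul_of_nonneg_left (le_abs_self _) hq0
    have h7 : q ^ 2 * IV ≤ q ^ 2 * W + ε / 8 * W := by linarith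
    have h9 := mul_le_mul_of_nonneg_left h7 hη.le
    have h10 : η * (ε / 8 * W) ≤ 1 * (ε / 8 * W) := mul_le_mul_of_nonneg_right hη1 (by positivity)
    have h11 : η * (q ^ 2 * IV) = η * q ^ 2 * IV := by ring
    have h12 : η * (q ^ 2 * W + ε / 8 * W) = η * q ^ 2 * W + η * (ε / 8 * W) := by ring
    linarith
  have p3 : (6 / η) * c ^ 2 * IV ≤ ε / 4 * W := by
    have h8 : (6 / η) * c ^ 2 ≤ ε / 8 := by
      calc (6 / η) * c ^ 2 ≤ (6 / η) * (η * ε / 48) := mul_le_mul_of_nonneg_left hc (by positivity)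
        _ = ε / 8 := by field_simp; norm_num
    calc (6 / η) * c ^ 2 * IV ≤ ε / 8 * (2 * W) := mul_le_mul h8 hIV hIV0 (by positivity)
      _ = ε / 4 * W := by ring
  have hsC : s ≤ C₂ * s := by nlinarith
  have p4 : (6 / η) * (IP + IP') ≤ (30 * C₂ / η * s + ε / 4) * W := by
    have h7 : IP + IP' ≤ (5 * C₂ * s + η * ε / 24) * W := by
      have h8 : ul * I₂ + C₂ * s + η * ε / 48 + (C₂ * s + η * ε / 48) ≤ 5 * C₂ * s + η * ε / 24 := by
        linarith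
      have h9 := mul_le_mul_of_nonneg_right h8 hW
      have h10 : (ul * I₂ + C₂ * s + η * ε / 48 + (C₂ * s + η * ε / 48)) * W =
        (ul * I₂ + C₂ * s + η * ε / 48) * W + (C₂ * s + η * ε / 48) * W := by ring
      linarith
    calc _ ≤ (6 / η) * ((5 * C₂ * s + η * ε / 24) * W) := mul_le_mul_of_nonneg_left h7 (by positivity)
      _ = (30 * C₂ / η * s + ε / 4) * W := by field_simp; ring
  have p5 : ul * I₂ * W ≤ 3 * C₂ / η * s * W := by
    refine mul_le_mul_of_nonneg_right ?_ hW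
    have h7 : 3 * s ≤ 3 * C₂ / η * s := by
      refine mul_le_mul_of_nonneg_right ?_ hs
      rw [le_div_iff₀ hη]
      linarith
    exact hul.trans h7
  have e1 : IZ - (q ^ 2 + ul * I₂) * W = (IZ - q ^ 2 * IV) + q ^ 2 * (IV - W) - ul * I₂ * W := by ring
  rw [e1]
  refine (abs_sub _ _).trans ?_
  have h11 := abs_add_le (IZ - q ^ 2 * IV) (q ^ 2 * (IV - W))
  rw [abs_mul (q ^ 2), abs_of_nonneg hq0] at h11
  rw [abs_of_nonneg (show 0 ≤ ul * I₂ * W by positivity)]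
  have h14 : (η * q ^ 2 + 33 * C₂ / η * s + ε) * W = η * q ^ 2 * W + (30 * C₂ / η * s + ε / 4) * W + 3 * C₂ / η * s * W +
      ε / 4 * W + ε / 4 * W + ε / 8 * W + ε / 8 * W := by ring
  have h15 : (η * q ^ 2 + (6 / η) * c ^ 2) * IV = η * q ^ 2 * IV + (6 / η) * c ^ 2 * IV := by ring
  have h16 : 0 ≤ ε / 4 * W := by positivity
  rw [h14]
  rw [h15] at h1
  linarith

theorem t_ZU : J_ZU := by
  intro hQH hQLF hMV hEFL hPU
  obtain ⟨C₁, hC₁, hMV⟩ := hMV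
  obtain ⟨C₂, hC₂, hPU⟩ := hPU
  refine ⟨33 * C₂, by linarith, ?_⟩
  intro δ H C K w θ ε η hδ hδ1 hH hC hK hw hθ hθ1 hε hη hη1
  obtain ⟨D, hD, hQB⟩ := qb_of hQH hQLF hδ (by linarith) hH hC hK hw
  obtain ⟨D', hD', hE⟩ := hEFL δ H C K w hδ (by linarith) hH hC hK hw
  have hI2 := I2_nonneg w
  have hc1 := c1_nonneg
  have hP := hPU δ H C K w θ (η * ε / 48) hδ hδ1 hH hC hK hw hθ hθ1 (by positivity)
  obtain ⟨K₁, hK₁⟩ : ∃ K₁ : ℝ, K₁ = (1 + 2 * C₂) * I2 w + η * ε / 48 := ⟨_, rfl⟩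
  have hK₁0 : 0 ≤ K₁ := by rw [hK₁]; positivity
  filter_upwards [hE, hP, ev_log 1, ev_log (2 / δ ^ 2), ev_log (2 * (D + D * Real.exp (1 / 2) * c1)),
    ev_log ((D' + 1) * (1 + 4 * (K₁ + 5) / ε)), ev_log (48 * D' ^ 2 / (η * ε)), ev_loglin (1 / 8) (by norm_num),
    ev_loglin (ε / (16 * (I2 w + 1))) (by positivity), ev_loglin (ε / (8 * D ^ 2) / 8) (by positivity),
    ev_short C₁ (ε / (8 * D ^ 2) / 2) θ (by linarith) (by positivity) hθ1, ev_short C₁ (1 / 2) θ (by linarith) (by norm_num) hθ1,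
    eventually_ge_atTop (1 : ℝ)] with T hE hP hL1 hL2 hL3 hL4 hL5 hL6 hL7 hL8 hSh hSh' hT1 N hN b u hu0 hu1
  generalize hL : Real.log T = L at *
  have hL0 : 0 < L := by linarith
  have hT0 : 0 < T := by linarith
  have hQ := hQB L hL1
  have hδL : 0 ≤ δ * L := by positivity
  obtain ⟨A, hA⟩ : ∃ A : ℝ, A = T + 2 * L := ⟨_, rfl⟩
  obtain ⟨B, hB⟩ : ∃ B : ℝ, B = 2 * T - 2 * L := ⟨_, rfl⟩
  rw [← hA, ← hB]
  rw [← hA, ← hB] at hE
  have hAB : A ≤ B := by rw [hA, hB]; linarith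
  have hBA : B - A = T - 4 * L := by rw [hA, hB]; ring
  have hVc : Continuous fun t => ‖dp N b t‖ ^ 2 := by
    have := dp_cont N b
    fun_prop
  have hV0 : ∀ t, 0 ≤ ‖dp N b t‖ ^ 2 := fun t => by positivity
  have hN2 := N2_nonneg N b
  have hTN : 0 ≤ T * N2 N b := by positivity
  have hD0 : (0 : ℝ) ≤ D := by linarith
  have hPc : Continuous (PL w L u) := PL_cont hQ hD0 hδL hL0 u
  have hPc' : Continuous (PL w L (-u)) := PL_cont hQ hD0 hδL hL0 (-u)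
  have hZc : Continuous (Zt w T u) := Zt_cont hw T u
  have hqD : QL w L u ^ 2 ≤ D ^ 2 := by
    rw [sq_le_sq, abs_of_nonneg hD0]
    exact hQ.bdd u
  have hu2 : u ≤ L := hu1.trans (by
    have : 0 ≤ (4 * δ + 2 * θ) * L := by positivity
    linarith)
  have huL : u / L ≤ 1 := (div_le_one hL0).2 hu2
  have huL0 : 0 ≤ u / L := by positivity
  obtain ⟨s, hs⟩ : ∃ s : ℝ, s = (δ + Real.sqrt θ) * I2 w := ⟨_, rfl⟩
  have hsθ := Real.sqrt_nonneg θ
  have hs0 : 0 ≤ s := by rw [hs]; positivity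
  have hδs : δ * I2 w ≤ s := by
    rw [hs]
    exact mul_le_mul_of_nonneg_right (by linarith) hI2
  have hδθ : δ + Real.sqrt θ ≤ 2 := by
    have : Real.sqrt θ ≤ 1 := by
      rw [Real.sqrt_le_one]
      linarith
    linarith
  have hsI : s ≤ 2 * I2 w := by
    rw [hs]
    exact mul_le_mul_of_nonneg_right hδθ hI2
  -- the error of the explicit formula
  obtain ⟨e, he⟩ : ∃ e : ℝ → ℂ, e = fun t : ℝ => cexp (-(I * u * t)) * Zt w T u t -
    ((QL w L u : ℂ) - PL w L u t - conj (PL w L (-u) t)) := ⟨_, rfl⟩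
  have heE : ∀ t ∈ Set.Icc A B, ‖e t‖ ≤ D' / L := by
    intro t ht
    rw [he]
    refine hE u t hu0 (hu1.trans ?_) ht.1 ht.2
    exact mul_le_mul_of_nonneg_right (by linarith) hL0.le
  -- the integral of `V`
  have hVms := dp_ms hMV A B hAB N b
  have hVint : |(∫ t in A..B, ‖dp N b t‖ ^ 2) - T * N2 N b| ≤ ε / (8 * D ^ 2) * (T * N2 N b) := by
    have h1 := mul_le_mul_of_nonneg_right (hSh N hN) hN2
    have e1 : (∫ t in A..B, ‖dp N b t‖ ^ 2) - T * N2 N b = ((∫ t in A..B, ‖dp N b t‖ ^ 2) - (B - A) * N2 N b) - 4 * L * N2 N b := by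
      rw [hBA]
      ring
    rw [e1]
    refine (abs_sub _ _).trans ?_
    rw [abs_of_nonneg (show 0 ≤ 4 * L * N2 N b by positivity)]
    have h3 := mul_le_mul_of_nonneg_right hL8 hN2
    have h4 : ε / (8 * D ^ 2) / 8 * T * N2 N b = ε / (8 * D ^ 2) * (T * N2 N b) / 8 := by ring
    have h5 : ε / (8 * D ^ 2) / 2 * T * N2 N b = ε / (8 * D ^ 2) * (T * N2 N b) / 2 := by ring
    rw [h4] at h3
    rw [h5] at h1
    linarith
  have hVle : ∫ t in A..B, ‖dp N b t‖ ^ 2 ≤ 2 * (T * N2 N b) := by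
    have h1 := mul_le_mul_of_nonneg_right (hSh' N hN) hN2
    have h3 := (abs_le.1 hVms).2
    have h4 : (B - A) * N2 N b ≤ T * N2 N b := mul_le_mul_of_nonneg_right (by rw [hBA]; linarith) hN2
    have h5 : 1 / 2 * T * N2 N b = (T * N2 N b) / 2 := by ring
    rw [h5] at h1
    linarith
  have hV0i : 0 ≤ ∫ t in A..B, ‖dp N b t‖ ^ 2 := intervalIntegral.integral_nonneg hAB fun t _ => hV0 t
  -- the prime sums
  have hP1 := hP N hN b u A B (by linarith) hu1 (by rw [hA]; linarith) hAB (by rw [hB]; linarith)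
  have hP2 := hP N hN b (-u) A B (by linarith) (by
    have : 0 ≤ (1 - 4 * δ - 2 * θ) * L := mul_nonneg (by linarith) hL0.le
    linarith) (by rw [hA]; linarith) hAB (by rw [hB]; linarith)
  rw [max_eq_left hu0] at hP1
  rw [max_eq_right (show -u ≤ 0 by linarith), zero_div, mul_zero, zero_mul, zero_mul, sub_zero] at hP2
  have e0 : (C₂ * (δ + Real.sqrt θ) * I2 w + η * ε / 48) * T * N2 N b = (C₂ * s + η * ε / 48) * (T * N2 N b) := by
    rw [hs]; ring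
  rw [e0] at hP1 hP2
  have hP2' : ∫ t in A..B, ‖PL w L (-u) t‖ ^ 2 * ‖dp N b t‖ ^ 2 ≤ (C₂ * s + η * ε / 48) * (T * N2 N b) := (abs_le.1 hP2).2
  have hBAT : (B - A) * (u / L) * I2 w * N2 N b = (u / L) * I2 w * (T * N2 N b) - 4 * L * (u / L) * I2 w * N2 N b := by
    rw [hBA]
    ring
  have h4L : 0 ≤ 4 * L * (u / L) * I2 w * N2 N b := by positivity
  have hP1' : ∫ t in A..B, ‖PL w L u t‖ ^ 2 * ‖dp N b t‖ ^ 2 ≤ (u / L * I2 w + C₂ * s + η * ε / 48) * (T * N2 N b) := by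
    have h1 := (abs_le.1 hP1).2
    have h2 : (u / L * I2 w + C₂ * s + η * ε / 48) * (T * N2 N b) = u / L * I2 w * (T * N2 N b) +
      (C₂ * s + η * ε / 48) * (T * N2 N b) := by ring
    rw [hBAT] at h1
    rw [h2]
    linarith
  by_cases hcase : 3 * δ * L ≤ u
  · -- the first case
    rw [if_pos hcase]
    obtain ⟨ρ, hρ⟩ : ∃ ρ : ℝ, ρ = (D' + 1) / L := ⟨_, rfl⟩
    have hρ0 : 0 < ρ := by rw [hρ]; positivity
    have hL4' : (D' + 1) * (1 + 4 * (K₁ + 5) / ε) = (D' + 1) + (D' + 1) * (4 * (K₁ + 5) / ε) := by ring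
    have hnn : 0 ≤ (D' + 1) * (4 * (K₁ + 5) / ε) := by positivity
    have hρ1 : ρ ≤ 1 := by
      rw [hρ, div_le_one hL0]
      linarith
    have hρ2 : ρ * (K₁ + 5) ≤ ε / 4 := by
      rw [hρ, div_mul_eq_mul_div, div_le_iff₀ hL0]
      have h1 : (D' + 1) * (4 * (K₁ + 5) / ε) ≤ L := by linarith
      have h2 : (D' + 1) * (4 * (K₁ + 5) / ε) * ε = 4 * ((D' + 1) * (K₁ + 5)) := by field_simp
      have h3 := mul_le_mul_of_nonneg_right h1 hε.le
      rw [h2] at h3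
      linarith
    have hsm := exp_small δ (D + D * Real.exp (1 / 2) * c1) L hδ (by positivity) hL1 hL2 hL3
    have hEX : 0 ≤ Real.exp (-(δ * L) ^ 2 / 2) := (Real.exp_pos _).le
    have hq1 : |QL w L u| ≤ D * Real.exp (-(δ * L) ^ 2 / 2) := by
      have h1 : |u| = u := abs_of_nonneg hu0
      have h2 := hQ.tail u (by rw [h1]; linarith)
      rw [h1] at h2
      refine h2.trans (mul_le_mul_of_nonneg_left (Real.exp_le_exp.2 ?_) hD0)
      have h3 : 0 ≤ (u - 2 * δ * L - δ * L) * (u - 2 * δ * L + δ * L) := mul_nonneg (by linarith) (by linarith)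
      have h4 : (u - 2 * δ * L - δ * L) * (u - 2 * δ * L + δ * L) = (u - 2 * δ * L) ^ 2 - (δ * L) ^ 2 := by ring
      linarith
    have hKE : (D + D * Real.exp (1 / 2) * c1) * Real.exp (-(δ * L) ^ 2 / 2) = D * Real.exp (-(δ * L) ^ 2 / 2) +
      D * Real.exp (1 / 2) * c1 * Real.exp (-(δ * L) ^ 2 / 2) := by ring
    have hKE0 : 0 ≤ D * Real.exp (1 / 2) * c1 * Real.exp (-(δ * L) ^ 2 / 2) := by positivity
    have h1ρ : 1 / L ≤ ρ := by
      rw [hρ]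
      exact div_le_div_of_nonneg_right (by linarith) hL0.le
    have hq2 : |QL w L u| ≤ ρ := by linarith
    have hr : ∀ t ∈ Set.Icc A B, ‖(QL w L u : ℂ) - conj (PL w L (-u) t) + e t‖ ≤ ρ := by
      intro t ht
      have h1 := PL_neg_small hQ hD0 hδ hL0 u t hcase
      have h2 : (D * Real.exp (1 / 2) * Real.exp (-(δ * L) ^ 2 / 2) / L) * c1 ≤
          D * Real.exp (1 / 2) * c1 * Real.exp (-(δ * L) ^ 2 / 2) := by
        rw [div_mul_eq_mul_div, div_le_iff₀ hL0]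
        have h5 : D * Real.exp (1 / 2) * Real.exp (-(δ * L) ^ 2 / 2) * c1 =
          D * Real.exp (1 / 2) * c1 * Real.exp (-(δ * L) ^ 2 / 2) * 1 := by ring
        rw [h5]
        exact mul_le_mul_of_nonneg_left hL1 hKE0
      have h3 := heE t ht
      calc ‖(QL w L u : ℂ) - conj (PL w L (-u) t) + e t‖ ≤ ‖(QL w L u : ℂ) - conj (PL w L (-u) t)‖ + ‖e t‖ := norm_add_le _ _
        _ ≤ ‖(QL w L u : ℂ)‖ + ‖conj (PL w L (-u) t)‖ + ‖e t‖ := add_le_add_left (norm_sub_le _ _) _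
        _ = |QL w L u| + ‖PL w L (-u) t‖ + ‖e t‖ := by rw [Complex.norm_real, Real.norm_eq_abs, RCLike.norm_conj]
        _ ≤ 1 / L + D' / L := by linarith
        _ = ρ := by rw [hρ]; ring
    have hint := zu1 hAB hVc hV0 hZc hPc (fun t => (QL w L u : ℂ) - conj (PL w L (-u) t) + e t) ρ hρ0 hρ1 hr (by
      intro t _
      rw [← norm_rot u t, ← norm_neg]
      congr 1
      rw [he]
      ring)
    have h8 : u / L * I2 w + C₂ * s + η * ε / 48 ≤ K₁ := by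
      rw [hK₁]
      have h9 : u / L * I2 w ≤ 1 * I2 w := mul_le_mul_of_nonneg_right huL hI2
      have h10 : C₂ * s ≤ C₂ * (2 * I2 w) := mul_le_mul_of_nonneg_left hsI (by linarith)
      linarith
    have hIP := hP1'.trans (mul_le_mul_of_nonneg_right h8 hTN)
    have h2 : |(∫ t in A..B, ‖PL w L u t‖ ^ 2 * ‖dp N b t‖ ^ 2) - (u / L) * I2 w * (T * N2 N b)| ≤
        (C₂ * s + η * ε / 48 + ε / 4) * (T * N2 N b) := by
      have e1 : (∫ t in A..B, ‖PL w L u t‖ ^ 2 * ‖dp N b t‖ ^ 2) - (u / L) * I2 w * (T * N2 N b) =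
          ((∫ t in A..B, ‖PL w L u t‖ ^ 2 * ‖dp N b t‖ ^ 2) - (B - A) * (u / L) * I2 w * N2 N b) -
            4 * L * (u / L) * I2 w * N2 N b := by
        rw [hBAT]
        ring
      rw [e1]
      refine (abs_sub _ _).trans ?_
      rw [abs_of_nonneg h4L]
      have h9 : 4 * L * (u / L) * I2 w * N2 N b ≤ ε / 4 * (T * N2 N b) := by
        have h12 : (u / L) * I2 w ≤ 1 * I2 w := mul_le_mul_of_nonneg_right huL hI2
        have h10 : 4 * L * ((u / L) * I2 w) ≤ 4 * (ε / (16 * (I2 w + 1)) * T) * (I2 w + 1) :=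
          mul_le_mul (by linarith) (by linarith) (by positivity) (by positivity)
        have h14 : 4 * (ε / (16 * (I2 w + 1)) * T) * (I2 w + 1) = ε / 4 * T := by
          field_simp
          norm_num
        rw [h14] at h10
        have h15 := mul_le_mul_of_nonneg_right h10 hN2
        calc 4 * L * (u / L) * I2 w * N2 N b = 4 * L * ((u / L) * I2 w) * N2 N b := by ring
          _ ≤ ε / 4 * T * N2 N b := h15
          _ = _ := by ring
      have h10 : (C₂ * s + η * ε / 48 + ε / 4) * (T * N2 N b) = (C₂ * s + η * ε / 48) * (T * N2 N b) + ε / 4 * (T * N2 N b) := by ring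
      rw [h10]
      exact add_le_add hP1 h9
    have h9 : QL w L u ^ 2 ≤ ρ := by
      have h10 : QL w L u ^ 2 ≤ ρ ^ 2 := by
        rw [sq_le_sq, abs_of_pos hρ0]
        exact hq2
      have h11 : ρ ^ 2 ≤ ρ := by nlinarith
      linarith
    have hε4 : η * ε / 48 ≤ ε / 4 := by nlinarith
    have hfin := num1 hTN hρ0 hint hIP hVle h9 h2 hε hε4 hs0 hC₂ hρ2
    have e1 : (QL w L u ^ 2 + u / L * I2 w) * T * N2 N b = (QL w L u ^ 2 + u / L * I2 w) * (T * N2 N b) := by ring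
    have e2 : (33 * C₂ * (δ + Real.sqrt θ) * I2 w + ε) * T * N2 N b = (33 * C₂ * s + ε) * (T * N2 N b) := by
      rw [hs]; ring
    rw [e1, e2]
    exact hfin
  · -- the second case
    rw [if_neg hcase]
    push Not at hcase
    have hint := zu2 hAB hVc hV0 hZc hPc hPc' e (QL w L u) (D' / L) η hη hη1 heE (by
      intro t _
      rw [← norm_rot u t]
      congr 1
      rw [he]
      ring)
    have huδ : u / L ≤ 3 * δ := by
      rw [div_le_iff₀ hL0]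
      exact hcase.le
    have hui : u / L * I2 w ≤ 3 * s := by
      have : u / L * I2 w ≤ 3 * δ * I2 w := mul_le_mul_of_nonneg_right huδ hI2
      linarith
    have hc : (D' / L) ^ 2 ≤ η * ε / 48 := by
      rw [div_pow]
      have h8 : L ≤ L ^ 2 := by nlinarith
      rw [div_le_iff₀ (by positivity)]
      rw [div_le_iff₀ (by positivity)] at hL5
      have h9 : L * (η * ε) ≤ L ^ 2 * (η * ε) := mul_le_mul_of_nonneg_right h8 (by positivity)
      linarith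
    have hfin := num2 (I₂ := I2 w) (ul := u / L) hTN hη hη1 hint hV0i hVle hVint hqD hD hP1' hP2' hε hs0 hC₂ (by positivity) hui hc
    have e1 : (QL w L u ^ 2 + u / L * I2 w) * T * N2 N b = (QL w L u ^ 2 + u / L * I2 w) * (T * N2 N b) := by ring
    have e2 : (η * QL w L u ^ 2 + 33 * C₂ / η * (δ + Real.sqrt θ) * I2 w + ε) * T * N2 N b =
        (η * QL w L u ^ 2 + 33 * C₂ / η * s + ε) * (T * N2 N b) := by
      rw [hs]; ring
    rw [e1, e2]
    exact hfin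

end

end Pool.Agent.Q150.UM
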